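import Mathlib
import Pool.Agent.Helper35.EC.Design

/-!
# MP_0db605_an, EC-T3a : bounds in the box, part 1
-/

set_option autoImplicit false

namespace EC

theorem bd_pos_nonneg (x : ℝ) : 0 ≤ pos x := le_max_right _ _

theorem bd_pos_of_nonneg {x : ℝ} (h : 0 ≤ x) : pos x = x := max_eq_left h

theorem bd_pos_of_nonpos {x : ℝ} (h : x ≤ 0) : pos x = 0 := max_eq_right h

theorem yf_pf {h u y : ℝ} (h0 : 0 < h) (h1 : h ≤ 1) : yf h u (pf h u y) = y := by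
  unfold yf pf om Phi
  set W := y - h * u ^ 3 with hW
  have hy : y = W + h * u ^ 3 := by rw [hW]; ring
  have hc : 4 / h * h = 4 := by field_simp
  rcases lt_or_ge W 0 with hW0 | hW0
  · rw [bd_pos_of_nonpos hW0.le, bd_pos_of_nonpos (by linarith : W - 2 * h ≤ 0)]
    have e : (W + (4 / h - 1) * (0 - 0)) / 4 = W / 4 := by ring
    rw [e, bd_pos_of_nonpos (by linarith : W / 4 - 2 ≤ 0),
      bd_pos_of_nonneg (by linarith : 0 ≤ -(W / 4)), hy]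
    ring
  · rcases le_or_gt W (2 * h) with hW1 | hW1
    · rw [bd_pos_of_nonneg hW0, bd_pos_of_nonpos (by linarith : W - 2 * h ≤ 0)]
      have e : (W + (4 / h - 1) * (W - 0)) / 4 = W / h := by field_simp; ring
      have e2 : W / h ≤ 2 := by rw [div_le_iff₀ h0]; exact hW1
      have e3 : 0 ≤ W / h := div_nonneg hW0 h0.le
      rw [e, bd_pos_of_nonpos (by linarith : W / h - 2 ≤ 0),
        bd_pos_of_nonpos (by linarith : -(W / h) ≤ 0), hy]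
      field_simp
      ring
    · rw [bd_pos_of_nonneg hW0, bd_pos_of_nonneg (by linarith : 0 ≤ W - 2 * h)]
      have e : (W + (4 / h - 1) * (W - (W - 2 * h))) / 4 = (W + 8 - 2 * h) / 4 := by
        field_simp; ring
      rw [e, bd_pos_of_nonneg (by linarith : 0 ≤ (W + 8 - 2 * h) / 4 - 2),
        bd_pos_of_nonpos (by linarith : -((W + 8 - 2 * h) / 4) ≤ 0), hy]
      ring

theorem pf_yf {h u p : ℝ} (h0 : 0 < h) (h1 : h ≤ 1) : pf h u (yf h u p) = p := by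
  unfold yf pf om Phi
  have e0 : h * (p + u ^ 3) + (4 - h) * (pos (p - 2) - pos (-p)) - h * u ^ 3 =
    h * p + (4 - h) * (pos (p - 2) - pos (-p)) := by ring
  rw [e0]
  rcases lt_or_ge p 0 with hp | hp
  · rw [bd_pos_of_nonpos (by linarith : p - 2 ≤ 0), bd_pos_of_nonneg (by linarith : 0 ≤ -p)]
    have e : h * p + (4 - h) * (0 - -p) = 4 * p := by ring
    rw [e, bd_pos_of_nonpos (by linarith : 4 * p ≤ 0),
      bd_pos_of_nonpos (by linarith : 4 * p - 2 * h ≤ 0)]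
    ring
  · rcases le_or_gt p 2 with hp1 | hp1
    · rw [bd_pos_of_nonpos (by linarith : p - 2 ≤ 0), bd_pos_of_nonpos (by linarith : -p ≤ 0)]
      have e : h * p + (4 - h) * (0 - 0) = h * p := by ring
      rw [e, bd_pos_of_nonneg (mul_nonneg h0.le hp : 0 ≤ h * p),
        bd_pos_of_nonpos (by nlinarith : h * p - 2 * h ≤ 0)]
      field_simp
      ring
    · rw [bd_pos_of_nonneg (by linarith : 0 ≤ p - 2), bd_pos_of_nonpos (by linarith : -p ≤ 0)]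
      have e : h * p + (4 - h) * (p - 2 - 0) = 4 * p - 8 + 2 * h := by ring
      rw [e, bd_pos_of_nonneg (by linarith : 0 ≤ 4 * p - 8 + 2 * h),
        bd_pos_of_nonneg (by linarith : 0 ≤ 4 * p - 8 + 2 * h - 2 * h)]
      field_simp
      ring

/-! small parameters -/

theorem bd_hpow {h K : ℝ} (hK : 10 ^ 10 ≤ K) (h0 : 0 < h) (hh : 10 ^ 60 * K ^ 40 * h ≤ 1)
    {j : ℕ} (hj : j ≤ 40) : K ^ j * h ≤ 1 / 10 ^ 60 := by
  have hK1 : 1 ≤ K := le_trans (by norm_num) hK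
  have h1 : K ^ j ≤ K ^ 40 := pow_le_pow_right₀ hK1 hj
  have h2 : K ^ j * h ≤ K ^ 40 * h := mul_le_mul_of_nonneg_right h1 h0.le
  rw [le_div_iff₀ (by positivity)]
  nlinarith

theorem bd_h_le {h K : ℝ} (hK : 10 ^ 10 ≤ K) (h0 : 0 < h) (hh : 10 ^ 60 * K ^ 40 * h ≤ 1) :
    h ≤ 1 / 10 ^ 60 := by
  have := bd_hpow hK h0 hh (j := 0) (by norm_num)
  simpa using this

theorem bd_phi_sub {h W : ℝ} (h0 : 0 < h) (h1 : h ≤ 1) : 0 ≤ Phi h W - W ∧ Phi h W - W ≤ 8 := by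
  unfold Phi
  have hc : 4 / h * h = 4 := by field_simp
  have hc2 : 0 ≤ 4 / h - 1 := by
    have : 4 ≤ 4 / h := by rw [le_div_iff₀ h0]; linarith
    linarith
  have h3 : 0 ≤ pos W - pos (W - 2 * h) ∧ pos W - pos (W - 2 * h) ≤ 2 * h := by
    rcases lt_or_ge W 0 with hW0 | hW0
    · rw [bd_pos_of_nonpos hW0.le, bd_pos_of_nonpos (by linarith : W - 2 * h ≤ 0)]
      constructor <;> linarith
    · rcases le_or_gt W (2 * h) with hW1 | hW1
      · rw [bd_pos_of_nonneg hW0, bd_pos_of_nonpos (by linarith : W - 2 * h ≤ 0)]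
        constructor <;> linarith
      · rw [bd_pos_of_nonneg hW0, bd_pos_of_nonneg (by linarith : 0 ≤ W - 2 * h)]
        constructor <;> linarith
  constructor
  · have := mul_nonneg hc2 h3.1
    linarith
  · have := mul_le_mul_of_nonneg_left h3.2 hc2
    nlinarith

theorem bd_abs_cube {K u : ℝ} (hu : |u| ≤ 2 * K) : |u ^ 3| ≤ 8 * K ^ 3 := by
  rw [abs_pow]
  calc |u| ^ 3 ≤ (2 * K) ^ 3 := pow_le_pow_left₀ (abs_nonneg _) hu 3
    _ = 8 * K ^ 3 := by ring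

theorem pf_abs_le {h K u y : ℝ} (hK : 10 ^ 10 ≤ K) (h0 : 0 < h) (hh : 10 ^ 60 * K ^ 40 * h ≤ 1)
    (hu : |u| ≤ 2 * K) (hy : |y| ≤ 2 * K) : |pf h u y| ≤ K ∧ |4 * pf h u y - y| ≤ 9 := by
  have hh1 := bd_h_le hK h0 hh
  have h1 : h ≤ 1 := le_trans hh1 (by norm_num)
  obtain ⟨a1, a2⟩ := bd_phi_sub (W := y - h * u ^ 3) h0 h1
  have h3 : |h * u ^ 3| ≤ 8 / 10 ^ 60 := by
    rw [abs_mul, abs_of_pos h0]
    have := bd_hpow hK h0 hh (j := 3) (by norm_num)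
    have h4 := bd_abs_cube hu
    calc h * |u ^ 3| ≤ h * (8 * K ^ 3) := mul_le_mul_of_nonneg_left h4 h0.le
      _ = 8 * (K ^ 3 * h) := by ring
      _ ≤ 8 * (1 / 10 ^ 60) := by linarith
      _ = 8 / 10 ^ 60 := by ring
  have h5 := abs_le.1 h3
  have h6 : |4 * pf h u y - y| ≤ 9 := by
    have : 4 * pf h u y = Phi h (y - h * u ^ 3) := by unfold pf; ring
    rw [this, abs_le]
    constructor <;> [linarith [h5.1, h5.2, (by norm_num : (8:ℝ) / 10 ^ 60 ≤ 1)];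
      linarith [h5.1, h5.2, (by norm_num : (8:ℝ) / 10 ^ 60 ≤ 1)]]
  refine ⟨?_, h6⟩
  have h7 := abs_le.1 h6
  have h8 := abs_le.1 hy
  rw [abs_le]
  constructor <;> linarith [h7.1, h7.2, h8.1, h8.2]

theorem bd_kf (u : ℝ) : |kf u - u| ≤ 1 := by
  unfold kf
  rcases le_or_gt 0 u with h1 | h1
  · rw [bd_pos_of_nonpos (by linarith : -u ≤ 0), bd_pos_of_nonpos (by linarith : -u - 1 / 2 ≤ 0)]
    rcases le_or_gt u 1 with h2 | h2
    · rw [bd_pos_of_nonpos (by linarith : u - 1 ≤ 0), abs_le]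
      constructor <;> linarith
    · rw [bd_pos_of_nonneg (by linarith : 0 ≤ u - 1), abs_le]
      constructor <;> linarith
  · rw [bd_pos_of_nonneg (by linarith : 0 ≤ -u), bd_pos_of_nonpos (by linarith : u - 1 ≤ 0)]
    rcases le_or_gt (-(1:ℝ)/2) u with h2 | h2
    · rw [bd_pos_of_nonpos (by linarith : -u - 1 / 2 ≤ 0), abs_le]
      constructor <;> nlinarith
    · rw [bd_pos_of_nonneg (by linarith : 0 ≤ -u - 1 / 2), abs_le]
      constructor <;> nlinarith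

theorem bd_Pf_small {h K u y : ℝ} (hK : 10 ^ 10 ≤ K) (h0 : 0 < h)
    (hh : 10 ^ 60 * K ^ 40 * h ≤ 1) (hu : |u| ≤ 2 * K) (hy : |y| ≤ 2 * K) :
    |Pf h u (pf h u y) - u| ≤ 1 + 1 / 10 ^ 50 := by
  have hp := (pf_abs_le hK h0 hh hu hy).1
  have hK0 : 0 < K := lt_of_lt_of_le (by norm_num) hK
  have e : Pf h u (pf h u y) - u = (kf u - u) + 4 * h * u ^ 2 * (u - 3 * pf h u y) := by
    unfold Pf; ring
  rw [e]
  have h1 : |4 * h * u ^ 2 * (u - 3 * pf h u y)| ≤ 1 / 10 ^ 50 := by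
    rw [abs_mul, abs_mul, abs_mul, abs_of_pos h0, abs_pow, abs_of_pos (by norm_num : (0:ℝ) < 4)]
    have h2 : |u| ^ 2 ≤ (2 * K) ^ 2 := pow_le_pow_left₀ (abs_nonneg _) hu 2
    have h3 : |u - 3 * pf h u y| ≤ 5 * K := by
      calc |u - 3 * pf h u y| ≤ |u| + |3 * pf h u y| := abs_sub _ _
        _ = |u| + 3 * |pf h u y| := by rw [abs_mul, abs_of_pos (by norm_num : (0:ℝ) < 3)]
        _ ≤ 5 * K := by linarith
    have h4 := bd_hpow hK h0 hh (j := 3) (by norm_num)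
    calc 4 * h * |u| ^ 2 * |u - 3 * pf h u y| ≤ 4 * h * (2 * K) ^ 2 * (5 * K) := by
          gcongr
      _ = 80 * (K ^ 3 * h) := by ring
      _ ≤ 80 * (1 / 10 ^ 60) := by linarith
      _ ≤ 1 / 10 ^ 50 := by norm_num
  calc |(kf u - u) + 4 * h * u ^ 2 * (u - 3 * pf h u y)| ≤
      |kf u - u| + |4 * h * u ^ 2 * (u - 3 * pf h u y)| := abs_add_le _ _
    _ ≤ 1 + 1 / 10 ^ 50 := add_le_add (bd_kf u) h1

theorem Pf_abs_le {h K u y : ℝ} (hK : 10 ^ 10 ≤ K) (h0 : 0 < h) (hh : 10 ^ 60 * K ^ 40 * h ≤ 1)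
    (hu : |u| ≤ 2 * K) (hy : |y| ≤ 2 * K) : |Pf h u (pf h u y) - u| ≤ 2 :=
  le_trans (bd_Pf_small hK h0 hh hu hy) (by norm_num)


/-! area -/

theorem bd_sum_le {K u y w z : ℝ} (hu : |u| ≤ 2 * K) (hy : |y| ≤ 2 * K) (hw : |w| ≤ 2 * K)
    (hz : |z| ≤ 2 * K) : u ^ 2 + y ^ 2 + w ^ 2 + z ^ 2 ≤ 16 * K ^ 2 := by
  have h : ∀ x : ℝ, |x| ≤ 2 * K → x ^ 2 ≤ 4 * K ^ 2 := fun x hx => by
    have := pow_le_pow_left₀ (abs_nonneg x) hx 2
    rw [sq_abs] at this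
    linarith
  linarith [h u hu, h y hy, h w hw, h z hz]

theorem bd_dd_abs (u y w z : ℝ) : |dd u y w z| ≤ u ^ 2 + y ^ 2 + w ^ 2 + z ^ 2 := by
  unfold dd
  rw [abs_le]
  constructor <;> nlinarith [sq_nonneg u, sq_nonneg y, sq_nonneg w, sq_nonneg z]

theorem bd_Det_ge {h : ℝ} (h0 : 0 < h) (u y w z : ℝ) : 1 ≤ Det h u y w z := by
  unfold Det
  have : 0 ≤ 2 * h * (u ^ 2 + y ^ 2 + w ^ 2 + z ^ 2) := by positivity
  have : 0 ≤ h ^ 2 * dd u y w z ^ 2 := by positivity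
  linarith

theorem bd_s {h K u y w z : ℝ} (hK : 10 ^ 10 ≤ K) (h0 : 0 < h)
    (hh : 10 ^ 60 * K ^ 40 * h ≤ 1)
    (hu : |u| ≤ 2 * K) (hy : |y| ≤ 2 * K) (hw : |w| ≤ 2 * K) (hz : |z| ≤ 2 * K)
    (σ : ℝ) (hσ : |σ| ≤ 1) :
    |(1 + σ * (h * dd u y w z)) / Det h u y w z - 1| ≤ 1 / K ^ 20 := by
  have hD := bd_Det_ge h0 u y w z
  have hD0 : 0 < Det h u y w z := by linarith
  have hK0 : 0 < K := lt_of_lt_of_le (by norm_num) hK
  have hs := bd_sum_le hu hy hw hz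
  have hd := bd_dd_abs u y w z
  have hh1 := bd_h_le hK h0 hh
  have h22 := bd_hpow hK h0 hh (j := 22) (by norm_num)
  have h24 := bd_hpow hK h0 hh (j := 24) (by norm_num)
  have hd2 : |dd u y w z| ≤ 16 * K ^ 2 := le_trans hd hs
  have e : (1 + σ * (h * dd u y w z)) / Det h u y w z - 1 =
      (σ * (h * dd u y w z) - 2 * h * (u ^ 2 + y ^ 2 + w ^ 2 + z ^ 2)
        - h ^ 2 * dd u y w z ^ 2) / Det h u y w z := by
    rw [div_sub_one hD0.ne']
    congr 1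
    unfold Det
    ring
  rw [e, abs_div, abs_of_pos hD0]
  have h1 : |σ * (h * dd u y w z) - 2 * h * (u ^ 2 + y ^ 2 + w ^ 2 + z ^ 2)
        - h ^ 2 * dd u y w z ^ 2| ≤ 48 * h * K ^ 2 + 256 * h ^ 2 * K ^ 4 := by
    have a1 : |σ * (h * dd u y w z)| ≤ 16 * h * K ^ 2 := by
      rw [abs_mul, abs_mul, abs_of_pos h0]
      calc |σ| * (h * |dd u y w z|) ≤ 1 * (h * (16 * K ^ 2)) := by gcongr
        _ = 16 * h * K ^ 2 := by ring
    have a2 : |2 * h * (u ^ 2 + y ^ 2 + w ^ 2 + z ^ 2)| ≤ 32 * h * K ^ 2 := by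
      rw [abs_of_nonneg (by positivity)]
      calc 2 * h * (u ^ 2 + y ^ 2 + w ^ 2 + z ^ 2) ≤ 2 * h * (16 * K ^ 2) := by gcongr
        _ = 32 * h * K ^ 2 := by ring
    have a3 : |h ^ 2 * dd u y w z ^ 2| ≤ 256 * h ^ 2 * K ^ 4 := by
      rw [abs_of_nonneg (by positivity), ← sq_abs (dd u y w z)]
      calc h ^ 2 * |dd u y w z| ^ 2 ≤ h ^ 2 * (16 * K ^ 2) ^ 2 := by gcongr
        _ = 256 * h ^ 2 * K ^ 4 := by ring
    calc _ ≤ |σ * (h * dd u y w z) - 2 * h * (u ^ 2 + y ^ 2 + w ^ 2 + z ^ 2)|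
            + |h ^ 2 * dd u y w z ^ 2| := abs_sub _ _
      _ ≤ (|σ * (h * dd u y w z)| + |2 * h * (u ^ 2 + y ^ 2 + w ^ 2 + z ^ 2)|)
            + |h ^ 2 * dd u y w z ^ 2| := by
          gcongr
          exact abs_sub _ _
      _ ≤ _ := by linarith
  calc |σ * (h * dd u y w z) - 2 * h * (u ^ 2 + y ^ 2 + w ^ 2 + z ^ 2)
        - h ^ 2 * dd u y w z ^ 2| / Det h u y w z
      ≤ |σ * (h * dd u y w z) - 2 * h * (u ^ 2 + y ^ 2 + w ^ 2 + z ^ 2)
        - h ^ 2 * dd u y w z ^ 2| := div_le_self (abs_nonneg _) hD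
    _ ≤ 48 * h * K ^ 2 + 256 * h ^ 2 * K ^ 4 := h1
    _ ≤ 1 / K ^ 20 := by
      rw [le_div_iff₀ (by positivity)]
      have b1 : (48 * h * K ^ 2 + 256 * h ^ 2 * K ^ 4) * K ^ 20 =
        48 * (K ^ 22 * h) + 256 * (h * (K ^ 24 * h)) := by ring
      rw [b1]
      have b2 : h * (K ^ 24 * h) ≤ 1 * (1 / 10 ^ 60) := by
        apply mul_le_mul (le_trans hh1 (by norm_num)) h24 (by positivity) (by norm_num)
      norm_num at b2 h22 ⊢
      linarith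

/-- area is close to the flat quadratic potential -/
theorem Ga_close {h K u y w z : ℝ} (hK : 10 ^ 10 ≤ K) (h0 : 0 < h)
    (hh : 10 ^ 60 * K ^ 40 * h ≤ 1)
    (hu : |u| ≤ 2 * K) (hy : |y| ≤ 2 * K) (hw : |w| ≤ 2 * K) (hz : |z| ≤ 2 * K) :
    |GaP h u y w z - u| ≤ |u| / K ^ 20 ∧ |GaQ h u y w z - y| ≤ |y| / K ^ 20 ∧
    |GaR h u y w z - w| ≤ |w| / K ^ 20 ∧ |GaS h u y w z - z| ≤ |z| / K ^ 20 := by
  have s1 := bd_s hK h0 hh hu hy hw hz 1 (by norm_num)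
  have s2 := bd_s hK h0 hh hu hy hw hz (-1) (by norm_num)
  have key : ∀ x σ : ℝ, |(1 + σ * (h * dd u y w z)) / Det h u y w z - 1| ≤ 1 / K ^ 20 →
      |x * (1 + σ * (h * dd u y w z)) / Det h u y w z - x| ≤ |x| / K ^ 20 := by
    intro x σ hx
    have e : x * (1 + σ * (h * dd u y w z)) / Det h u y w z - x =
      x * ((1 + σ * (h * dd u y w z)) / Det h u y w z - 1) := by ring
    rw [e, abs_mul]
    calc |x| * |(1 + σ * (h * dd u y w z)) / Det h u y w z - 1| ≤ |x| * (1 / K ^ 20) := by gcongr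
      _ = |x| / K ^ 20 := by ring
  have k1 := fun x => key x 1 s1
  have k2 := fun x => key x (-1) s2
  simp only [one_mul] at k1
  simp only [neg_mul, one_mul, ← sub_eq_add_neg] at k2
  exact ⟨k1 u, k2 y, k2 w, k1 z⟩

theorem delta_bound {h K u y w z : ℝ} (hK : 10 ^ 10 ≤ K) (h0 : 0 < h)
    (hh : 10 ^ 60 * K ^ 40 * h ≤ 1)
    (hu : |u| ≤ 2 * K) (hy : |y| ≤ 2 * K) (hw : |w| ≤ 2 * K) (hz : |z| ≤ 2 * K) :
    (Pf h u (pf h u y) - GaP h u y w z) ^ 2 + (4 * pf h u y - GaQ h u y w z) ^ 2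
      + (w - GaR h u y w z) ^ 2 + (z - GaS h u y w z) ^ 2 ≤ 81 := by
  have hK0 : 0 < K := lt_of_lt_of_le (by norm_num) hK
  obtain ⟨g1, g2, g3, g4⟩ := Ga_close hK h0 hh hu hy hw hz
  have hP := bd_Pf_small hK h0 hh hu hy
  have hQ := pf_abs_le hK h0 hh hu hy
  have small : ∀ x : ℝ, |x| ≤ 2 * K → |x| / K ^ 20 ≤ 1 / 10 ^ 20 := by
    intro x hx
    rw [div_le_div_iff₀ (by positivity) (by positivity)]
    have h1 : (10:ℝ) ^ 190 ≤ K ^ 19 := by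
      calc (10:ℝ) ^ 190 = (10 ^ 10) ^ 19 := by norm_num
        _ ≤ K ^ 19 := by gcongr
    calc |x| * 10 ^ 20 ≤ 2 * K * 10 ^ 20 := by gcongr
      _ ≤ K * 10 ^ 190 := by
          have : (2 * 10 ^ 20 : ℝ) ≤ 10 ^ 190 := by norm_num
          nlinarith
      _ ≤ K * K ^ 19 := by gcongr
      _ = 1 * K ^ 20 := by ring
  have hQ' : |4 * pf h u y - y| ≤ 8 + 1 / 10 ^ 50 := by
    have hh1 := bd_h_le hK h0 hh
    have h1 : h ≤ 1 := le_trans hh1 (by norm_num)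
    obtain ⟨a1, a2⟩ := bd_phi_sub (W := y - h * u ^ 3) h0 h1
    have h3 : |h * u ^ 3| ≤ 8 / 10 ^ 60 := by
      rw [abs_mul, abs_of_pos h0]
      have := bd_hpow hK h0 hh (j := 3) (by norm_num)
      have h4 := bd_abs_cube hu
      calc h * |u ^ 3| ≤ h * (8 * K ^ 3) := mul_le_mul_of_nonneg_left h4 h0.le
        _ = 8 * (K ^ 3 * h) := by ring
        _ ≤ 8 * (1 / 10 ^ 60) := by linarith
        _ = 8 / 10 ^ 60 := by ring
    have h5 := abs_le.1 h3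
    have : 4 * pf h u y = Phi h (y - h * u ^ 3) := by unfold pf; ring
    have h9 : (8:ℝ) / 10 ^ 60 ≤ 1 / 10 ^ 50 := by norm_num
    rw [this, abs_le]
    constructor
    · linarith [h5.1, h5.2]
    · linarith [h5.1, h5.2]
  have sq_of : ∀ x B : ℝ, 0 ≤ B → |x| ≤ B → x ^ 2 ≤ B ^ 2 := by
    intro x B hB hx
    rw [← sq_abs]
    exact pow_le_pow_left₀ (abs_nonneg _) hx 2
  have t1 : |Pf h u (pf h u y) - GaP h u y w z| ≤ 11 / 10 := by
    calc |Pf h u (pf h u y) - GaP h u y w z| =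
        |(Pf h u (pf h u y) - u) - (GaP h u y w z - u)| := by ring_nf
      _ ≤ |Pf h u (pf h u y) - u| + |GaP h u y w z - u| := abs_sub _ _
      _ ≤ (1 + 1 / 10 ^ 50) + 1 / 10 ^ 20 := add_le_add hP (le_trans g1 (small u hu))
      _ ≤ 11 / 10 := by norm_num
  have t2 : |4 * pf h u y - GaQ h u y w z| ≤ 81 / 10 := by
    calc |4 * pf h u y - GaQ h u y w z| =
        |(4 * pf h u y - y) - (GaQ h u y w z - y)| := by ring_nf
      _ ≤ |4 * pf h u y - y| + |GaQ h u y w z - y| := abs_sub _ _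
      _ ≤ (8 + 1 / 10 ^ 50) + 1 / 10 ^ 20 := add_le_add hQ' (le_trans g2 (small y hy))
      _ ≤ 81 / 10 := by norm_num
  have t3 : |w - GaR h u y w z| ≤ 1 / 10 := by
    rw [abs_sub_comm]
    exact le_trans (le_trans g3 (small w hw)) (by norm_num)
  have t4 : |z - GaS h u y w z| ≤ 1 / 10 := by
    rw [abs_sub_comm]
    exact le_trans (le_trans g4 (small z hz)) (by norm_num)
  have q1 := sq_of _ _ (by norm_num) t1
  have q2 := sq_of _ _ (by norm_num) t2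
  have q3 := sq_of _ _ (by norm_num) t3
  have q4 := sq_of _ _ (by norm_num) t4
  norm_num at q1 q2 q3 q4 ⊢
  linarith

end EC
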