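import Mathlib
import Pool.Agent.Helper94.EC.Bounds1
import Pool.Agent.Helper48.EC.Calc

/-!
# MP_0db605_an, EC-T3a : bounds in the box, part 2
-/

set_option autoImplicit false

namespace EC

theorem bd_cs4 (a b c d x y z w : ℝ) :
    (a * x + b * y + c * z + d * w) ^ 2 ≤
      (a ^ 2 + b ^ 2 + c ^ 2 + d ^ 2) * (x ^ 2 + y ^ 2 + z ^ 2 + w ^ 2) := by
  linarith only [sq_nonneg (a * y - b * x), sq_nonneg (a * z - c * x), sq_nonneg (a * w - d * x),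
    sq_nonneg (b * z - c * y), sq_nonneg (b * w - d * y), sq_nonneg (c * w - d * z)]

theorem bd_cs4_abs {a b c d x y z w B : ℝ} (hB : 0 ≤ B)
    (h : a ^ 2 + b ^ 2 + c ^ 2 + d ^ 2 ≤ B ^ 2) :
    |a * x + b * y + c * z + d * w| ≤ B * Real.sqrt (x ^ 2 + y ^ 2 + z ^ 2 + w ^ 2) := by
  have h1 := bd_cs4 a b c d x y z w
  have hS : 0 ≤ x ^ 2 + y ^ 2 + z ^ 2 + w ^ 2 := by positivity
  rw [← Real.sqrt_sq hB, ← Real.sqrt_mul (sq_nonneg B), ← Real.sqrt_sq_eq_abs]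
  apply Real.sqrt_le_sqrt
  exact le_trans h1 (mul_le_mul_of_nonneg_right h hS)

theorem DD_lip {h K u y w z u' y' w' z' : ℝ} (hK : 10 ^ 10 ≤ K) (h0 : 0 < h)
    (hh : 10 ^ 60 * K ^ 40 * h ≤ 1)
    (hu : |u| ≤ 2 * K) (hy : |y| ≤ 2 * K) (hw : |w| ≤ 2 * K) (hz : |z| ≤ 2 * K)
    (hu' : |u'| ≤ 2 * K) (hy' : |y'| ≤ 2 * K) (hw' : |w'| ≤ 2 * K) (hz' : |z'| ≤ 2 * K) :
    |DD h u' y' w' z' - DD h u y w z|
      ≤ 18 * Real.sqrt ((u' - u) ^ 2 + (y' - y) ^ 2 + (w' - w) ^ 2 + (z' - z) ^ 2) := by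
  have hd : ∀ x x' t : ℝ, HasDerivAt (fun s : ℝ => x + s * (x' - x)) (x' - x) t := by
    intro x x' t
    simpa using ((hasDerivAt_id t).mul_const (x' - x)).const_add x
  have hb : ∀ x x' t : ℝ, |x| ≤ 2 * K → |x'| ≤ 2 * K → t ∈ Set.Icc (0:ℝ) 1 →
      |x + t * (x' - x)| ≤ 2 * K := by
    intro x x' t hx hx' ht
    rw [abs_le] at hx hx' ⊢
    constructor
    · nlinarith only [hx, ht, hx', ht.1, ht.2, hx.1, hx'.1]
    · nlinarith only [hx, ht, hx', ht.1, ht.2, hx.2, hx'.2]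
  set f : ℝ → ℝ := fun s => DD h (u + s * (u' - u)) (y + s * (y' - y)) (w + s * (w' - w))
    (z + s * (z' - z)) with hf
  set g : ℝ → ℝ := fun t => 2 * ((Pf h (u + t * (u' - u)) (pf h (u + t * (u' - u)) (y + t * (y' - y))) -
        GaP h (u + t * (u' - u)) (y + t * (y' - y)) (w + t * (w' - w)) (z + t * (z' - z))) * (u' - u)
        + (4 * pf h (u + t * (u' - u)) (y + t * (y' - y)) -
        GaQ h (u + t * (u' - u)) (y + t * (y' - y)) (w + t * (w' - w)) (z + t * (z' - z))) * (y' - y)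
        + ((w + t * (w' - w)) -
        GaR h (u + t * (u' - u)) (y + t * (y' - y)) (w + t * (w' - w)) (z + t * (z' - z))) * (w' - w)
        + ((z + t * (z' - z)) -
        GaS h (u + t * (u' - u)) (y + t * (y' - y)) (w + t * (w' - w)) (z + t * (z' - z))) * (z' - z))
    with hg
  have hderiv : ∀ t ∈ Set.Icc (0:ℝ) 1, HasDerivWithinAt f (g t) (Set.Icc 0 1) t := by
    intro t _
    exact (DD_hasDerivAt h0 (hd u u' t) (hd y y' t) (hd w w' t) (hd z z' t)).hasDerivWithinAt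
  have hbound : ∀ t ∈ Set.Ico (0:ℝ) 1, ‖g t‖ ≤
      18 * Real.sqrt ((u' - u) ^ 2 + (y' - y) ^ 2 + (w' - w) ^ 2 + (z' - z) ^ 2) := by
    intro t ht
    have ht' : t ∈ Set.Icc (0:ℝ) 1 := ⟨ht.1, ht.2.le⟩
    have hδ := delta_bound hK h0 hh (hb u u' t hu hu' ht') (hb y y' t hy hy' ht')
      (hb w w' t hw hw' ht') (hb z z' t hz hz' ht')
    have := bd_cs4_abs (x := u' - u) (y := y' - y) (z := w' - w) (w := z' - z)
      (by norm_num : (0:ℝ) ≤ 9) (le_trans hδ (by norm_num))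
    rw [hg, Real.norm_eq_abs, abs_mul, abs_of_pos (by norm_num : (0:ℝ) < 2)]
    linarith
  have := norm_image_sub_le_of_norm_deriv_le_segment_01' hderiv hbound
  rw [Real.norm_eq_abs] at this
  simpa [hf] using this

theorem bd_DD_zero {h : ℝ} (h0 : 0 < h) : DD h 0 0 0 0 = 0 := by
  unfold DD Sd Theta Det dd
  have e1 : pos (0 - 1) = 0 := bd_pos_of_nonpos (by norm_num)
  have e2 : pos (-0 - 1 / 2) = 0 := bd_pos_of_nonpos (by norm_num)
  have e3 : pos (-0) = 0 := bd_pos_of_nonpos (by norm_num)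
  have e4 : pos (0 - h * 0 ^ 3) = 0 := bd_pos_of_nonpos (by norm_num)
  have e5 : pos (0 - h * 0 ^ 3 - 2 * h) = 0 := bd_pos_of_nonpos (by linarith)
  rw [e1, e2, e3, e4, e5]
  simp

theorem bd_sqrt_le {K a b c d : ℝ} (hK : 0 ≤ K) (h : a ^ 2 + b ^ 2 + c ^ 2 + d ^ 2 ≤ K ^ 2) :
    Real.sqrt (a ^ 2 + b ^ 2 + c ^ 2 + d ^ 2) ≤ K := by
  rw [← Real.sqrt_sq hK]
  exact Real.sqrt_le_sqrt h

theorem bd_DD_bound {h K u y w z : ℝ} (hK : 10 ^ 10 ≤ K) (h0 : 0 < h)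
    (hh : 10 ^ 60 * K ^ 40 * h ≤ 1)
    (hu : |u| ≤ 2 * K) (hy : |y| ≤ 2 * K) (hw : |w| ≤ 2 * K) (hz : |z| ≤ 2 * K) :
    |DD h u y w z| ≤ 72 * K := by
  have hK0 : 0 < K := lt_of_lt_of_le (by norm_num) hK
  have h00 : |(0:ℝ)| ≤ 2 * K := by rw [abs_zero]; positivity
  have := DD_lip hK h0 hh h00 h00 h00 h00 hu hy hw hz
  rw [bd_DD_zero h0] at this
  simp only [sub_zero] at this
  have h1 := bd_sqrt_le (K := 4 * K) (by positivity)
    (le_trans (bd_sum_le hu hy hw hz) (by ring_nf; exact le_rfl))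
  linarith

theorem bd_theta_nonneg (K u y w z : ℝ) : 0 ≤ theta K u y w z := bd_pos_nonneg _

theorem bd_NN_nonneg (u y w z : ℝ) : 0 ≤ NN u y w z := by unfold NN; positivity

theorem bd_theta_le (K u y w z : ℝ) : theta K u y w z ≤ 1 := by
  unfold theta pos
  refine max_le ?_ zero_le_one
  have : 0 ≤ NN u y w z / K ^ 2 := div_nonneg (bd_NN_nonneg _ _ _ _) (sq_nonneg _)
  linarith

theorem tau_bound {h K u y w z : ℝ} (hK : 10 ^ 10 ≤ K) (h0 : 0 < h)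
    (hh : 10 ^ 60 * K ^ 40 * h ≤ 1)
    (hu : |u| ≤ 2 * K) (hy : |y| ≤ 2 * K) (hw : |w| ≤ 2 * K) (hz : |z| ≤ 2 * K) :
    |tau h K u y w z| ≤ 160 / K := by
  have hK0 : 0 < K := lt_of_lt_of_le (by norm_num) hK
  unfold tau
  rw [abs_mul, abs_mul, abs_of_nonneg (bd_theta_nonneg _ _ _ _ _),
    abs_of_pos (by positivity : (0:ℝ) < 2 / K ^ 2)]
  calc 2 / K ^ 2 * |DD h u y w z| * theta K u y w z ≤ 2 / K ^ 2 * (72 * K) * 1 := by
        gcongr
        · exact bd_theta_nonneg _ _ _ _ _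
        · exact bd_DD_bound hK h0 hh hu hy hw hz
        · exact bd_theta_le _ _ _ _ _
    _ = 144 / K := by field_simp; ring
    _ ≤ 160 / K := by gcongr; norm_num

theorem bd_pos_lip (x y : ℝ) : |pos x - pos y| ≤ |x - y| := by
  unfold pos
  exact abs_max_sub_max_le_abs x y 0

theorem bd_k2_lip (x y : ℝ) : |k2 x - k2 y| ≤ |x - y| := by
  unfold k2 pos
  rw [abs_le]
  rcases le_total x y with h | h
  · rw [abs_sub_comm, abs_of_nonneg (by linarith : 0 ≤ y - x)]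
    constructor
    · rcases max_cases (x - 2) 0 with h1 | h1 <;> rcases max_cases (-x - 2) 0 with h2 | h2 <;>
      rcases max_cases (y - 2) 0 with h3 | h3 <;> rcases max_cases (-y - 2) 0 with h4 | h4 <;>
      linarith [h1.1, h1.2, h2.1, h2.2, h3.1, h3.2, h4.1, h4.2]
    · rcases max_cases (x - 2) 0 with h1 | h1 <;> rcases max_cases (-x - 2) 0 with h2 | h2 <;>
      rcases max_cases (y - 2) 0 with h3 | h3 <;> rcases max_cases (-y - 2) 0 with h4 | h4 <;>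
      linarith [h1.1, h1.2, h2.1, h2.2, h3.1, h3.2, h4.1, h4.2]
  · rw [abs_of_nonneg (by linarith : 0 ≤ x - y)]
    constructor
    · rcases max_cases (x - 2) 0 with h1 | h1 <;> rcases max_cases (-x - 2) 0 with h2 | h2 <;>
      rcases max_cases (y - 2) 0 with h3 | h3 <;> rcases max_cases (-y - 2) 0 with h4 | h4 <;>
      linarith [h1.1, h1.2, h2.1, h2.2, h3.1, h3.2, h4.1, h4.2]
    · rcases max_cases (x - 2) 0 with h1 | h1 <;> rcases max_cases (-x - 2) 0 with h2 | h2 <;>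
      rcases max_cases (y - 2) 0 with h3 | h3 <;> rcases max_cases (-y - 2) 0 with h4 | h4 <;>
      linarith [h1.1, h1.2, h2.1, h2.2, h3.1, h3.2, h4.1, h4.2]

theorem bd_k1_lip (x y : ℝ) : |k1 x - k1 y| ≤ |x - y| := by
  unfold k1 pos
  rw [abs_le]
  rcases le_total x y with h | h
  · rw [abs_sub_comm, abs_of_nonneg (by linarith : 0 ≤ y - x)]
    constructor
    · rcases max_cases (x - 1) 0 with h1 | h1 <;> rcases max_cases (-x - 1) 0 with h2 | h2 <;>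
      rcases max_cases (y - 1) 0 with h3 | h3 <;> rcases max_cases (-y - 1) 0 with h4 | h4 <;>
      linarith [h1.1, h1.2, h2.1, h2.2, h3.1, h3.2, h4.1, h4.2]
    · rcases max_cases (x - 1) 0 with h1 | h1 <;> rcases max_cases (-x - 1) 0 with h2 | h2 <;>
      rcases max_cases (y - 1) 0 with h3 | h3 <;> rcases max_cases (-y - 1) 0 with h4 | h4 <;>
      linarith [h1.1, h1.2, h2.1, h2.2, h3.1, h3.2, h4.1, h4.2]
  · rw [abs_of_nonneg (by linarith : 0 ≤ x - y)]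
    constructor
    · rcases max_cases (x - 1) 0 with h1 | h1 <;> rcases max_cases (-x - 1) 0 with h2 | h2 <;>
      rcases max_cases (y - 1) 0 with h3 | h3 <;> rcases max_cases (-y - 1) 0 with h4 | h4 <;>
      linarith [h1.1, h1.2, h2.1, h2.2, h3.1, h3.2, h4.1, h4.2]
    · rcases max_cases (x - 1) 0 with h1 | h1 <;> rcases max_cases (-x - 1) 0 with h2 | h2 <;>
      rcases max_cases (y - 1) 0 with h3 | h3 <;> rcases max_cases (-y - 1) 0 with h4 | h4 <;>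
      linarith [h1.1, h1.2, h2.1, h2.2, h3.1, h3.2, h4.1, h4.2]

theorem bd_k2_abs (x : ℝ) : |k2 x| ≤ |x| := by
  have h : k2 0 = 0 := by
    unfold k2 pos
    norm_num
  simpa [h] using bd_k2_lip x 0

theorem bd_k1_abs (x : ℝ) : |k1 x| ≤ |x| := by
  have h : k1 0 = 0 := by
    unfold k1 pos
    norm_num
  simpa [h] using bd_k1_lip x 0

theorem bd_abs_le_k2 (x : ℝ) : |x| ≤ |k2 x| + 2 := by
  unfold k2 pos
  rcases le_total 0 x with h | h
  · rw [abs_of_nonneg h]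
    rcases max_cases (x - 2) 0 with h1 | h1 <;> rcases max_cases (-x - 2) 0 with h2 | h2 <;>
    rw [h1.1, h2.1] <;>
    linarith [le_abs_self (x - 2 - (-x - 2)), le_abs_self (x - 2 - 0), abs_nonneg (0 - (-x - 2)),
      abs_nonneg ((0:ℝ) - 0), h1.2, h2.2]
  · rw [abs_of_nonpos h]
    rcases max_cases (x - 2) 0 with h1 | h1 <;> rcases max_cases (-x - 2) 0 with h2 | h2 <;>
    rw [h1.1, h2.1] <;>
    linarith [neg_abs_le (x - 2 - (-x - 2)), neg_abs_le (x - 2 - 0), neg_abs_le (0 - (-x - 2)),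
      abs_nonneg ((0:ℝ) - 0), h1.2, h2.2]

theorem bd_abs_le_k1 (x : ℝ) : |x| ≤ |k1 x| + 1 := by
  unfold k1 pos
  rcases le_total 0 x with h | h
  · rw [abs_of_nonneg h]
    rcases max_cases (x - 1) 0 with h1 | h1 <;> rcases max_cases (-x - 1) 0 with h2 | h2 <;>
    rw [h1.1, h2.1] <;>
    linarith [le_abs_self (x - 1 - (-x - 1)), le_abs_self (x - 1 - 0), abs_nonneg (0 - (-x - 1)),
      abs_nonneg ((0:ℝ) - 0), h1.2, h2.2]
  · rw [abs_of_nonpos h]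
    rcases max_cases (x - 1) 0 with h1 | h1 <;> rcases max_cases (-x - 1) 0 with h2 | h2 <;>
    rw [h1.1, h2.1] <;>
    linarith only [h, h1, h2, neg_abs_le (x - 1 - (-x - 1)), neg_abs_le (x - 1 - 0), neg_abs_le (0 - (-x - 1)),
      abs_nonneg ((0:ℝ) - 0), h1.2, h2.2]

theorem bd_NN_lip {K u y w z u' y' w' z' : ℝ} (hK : 0 < K)
    (hu : |u| ≤ 2 * K) (hy : |y| ≤ 2 * K) (hw : |w| ≤ 2 * K) (hz : |z| ≤ 2 * K)
    (hu' : |u'| ≤ 2 * K) (hy' : |y'| ≤ 2 * K) (hw' : |w'| ≤ 2 * K) (hz' : |z'| ≤ 2 * K) :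
    |NN u' y' w' z' - NN u y w z| ≤
      8 * K * Real.sqrt ((u' - u) ^ 2 + (y' - y) ^ 2 + (w' - w) ^ 2 + (z' - z) ^ 2) := by
  have e : NN u' y' w' z' - NN u y w z =
      (k2 u' + k2 u) * (k2 u' - k2 u) + (k1 y' + k1 y) * (k1 y' - k1 y)
        + (w' + w) * (w' - w) + (z' + z) * (z' - z) := by
    unfold NN; ring
  rw [e]
  have sq4 : ∀ x x' : ℝ, |x| ≤ 2 * K → |x'| ≤ 2 * K → (x' + x) ^ 2 ≤ 16 * K ^ 2 := by
    intro x x' hx hx'
    have h1 : |x' + x| ≤ 4 * K := le_trans (abs_add_le _ _) (by linarith)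
    have h2 := pow_le_pow_left₀ (abs_nonneg _) h1 2
    rw [sq_abs] at h2
    linarith
  have h1 := sq4 (k2 u) (k2 u') (le_trans (bd_k2_abs u) hu) (le_trans (bd_k2_abs u') hu')
  have h2 := sq4 (k1 y) (k1 y') (le_trans (bd_k1_abs y) hy) (le_trans (bd_k1_abs y') hy')
  have h3 := sq4 w w' hw hw'
  have h4 := sq4 z z' hz hz'
  have h5 := bd_cs4_abs (a := k2 u' + k2 u) (b := k1 y' + k1 y) (c := w' + w) (d := z' + z)
    (x := k2 u' - k2 u) (y := k1 y' - k1 y) (z := w' - w) (w := z' - z) (B := 8 * K)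
    (by positivity) (by linarith)
  refine le_trans h5 ?_
  gcongr 8 * K * Real.sqrt (?_ + ?_ + (w' - w) ^ 2 + (z' - z) ^ 2)
  · exact sq_le_sq.2 (bd_k2_lip u' u)
  · exact sq_le_sq.2 (bd_k1_lip y' y)

theorem tau_lip {h K u y w z u' y' w' z' : ℝ} (hK : 10 ^ 10 ≤ K) (h0 : 0 < h)
    (hh : 10 ^ 60 * K ^ 40 * h ≤ 1)
    (hu : |u| ≤ 2 * K) (hy : |y| ≤ 2 * K) (hw : |w| ≤ 2 * K) (hz : |z| ≤ 2 * K)
    (hu' : |u'| ≤ 2 * K) (hy' : |y'| ≤ 2 * K) (hw' : |w'| ≤ 2 * K) (hz' : |z'| ≤ 2 * K) :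
    |tau h K u' y' w' z' - tau h K u y w z|
      ≤ 1500 / K ^ 2 * Real.sqrt ((u' - u) ^ 2 + (y' - y) ^ 2 + (w' - w) ^ 2 + (z' - z) ^ 2) := by
  have hK0 : 0 < K := lt_of_lt_of_le (by norm_num) hK
  set t := Real.sqrt ((u' - u) ^ 2 + (y' - y) ^ 2 + (w' - w) ^ 2 + (z' - z) ^ 2) with ht
  have ht0 : 0 ≤ t := Real.sqrt_nonneg _
  have hDD := DD_lip hK h0 hh hu hy hw hz hu' hy' hw' hz'
  have hDb := bd_DD_bound hK h0 hh hu' hy' hw' hz'
  have hth : |theta K u' y' w' z' - theta K u y w z| ≤ 8 * t / K := by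
    unfold theta
    refine le_trans (bd_pos_lip _ _) ?_
    have e : (1 - NN u' y' w' z' / K ^ 2) - (1 - NN u y w z / K ^ 2) =
      -((NN u' y' w' z' - NN u y w z) / K ^ 2) := by ring
    rw [e, abs_neg, abs_div, abs_of_pos (by positivity : 0 < K ^ 2)]
    rw [div_le_div_iff₀ (by positivity) hK0]
    have := bd_NN_lip hK0 hu hy hw hz hu' hy' hw' hz'
    calc |NN u' y' w' z' - NN u y w z| * K ≤ (8 * K * t) * K := by gcongr
      _ = 8 * t * K ^ 2 := by ring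
  have e : tau h K u' y' w' z' - tau h K u y w z =
      2 / K ^ 2 * ((DD h u' y' w' z' - DD h u y w z) * theta K u y w z
        + DD h u' y' w' z' * (theta K u' y' w' z' - theta K u y w z)) := by
    unfold tau; ring
  rw [e, abs_mul, abs_of_pos (by positivity : (0:ℝ) < 2 / K ^ 2)]
  have h1 : |(DD h u' y' w' z' - DD h u y w z) * theta K u y w z
        + DD h u' y' w' z' * (theta K u' y' w' z' - theta K u y w z)| ≤ 594 * t := by
    refine le_trans (abs_add_le _ _) ?_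
    rw [abs_mul, abs_mul, abs_of_nonneg (bd_theta_nonneg K u y w z)]
    calc |DD h u' y' w' z' - DD h u y w z| * theta K u y w z
        + |DD h u' y' w' z'| * |theta K u' y' w' z' - theta K u y w z| ≤
        (18 * t) * 1 + (72 * K) * (8 * t / K) := by
          gcongr
          · exact bd_theta_nonneg _ _ _ _ _
          · exact bd_theta_le _ _ _ _ _
      _ = 594 * t := by field_simp; ring
  calc 2 / K ^ 2 * |(DD h u' y' w' z' - DD h u y w z) * theta K u y w z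
        + DD h u' y' w' z' * (theta K u' y' w' z' - theta K u y w z)| ≤
      2 / K ^ 2 * (594 * t) := by gcongr
    _ = 1188 / K ^ 2 * t := by ring
    _ ≤ 1500 / K ^ 2 * t := by gcongr; norm_num

theorem H_bound {h K u y w z : ℝ} (hK : 10 ^ 10 ≤ K) (h0 : 0 < h)
    (hh : 10 ^ 60 * K ^ 40 * h ≤ 1) :
    HP h K u y w z ^ 2 + HQ h K u y w z ^ 2 + HR h K u y w z ^ 2 + HS h K u y w z ^ 2
      ≤ 200 ^ 2 := by
  have hK0 : 0 < K := lt_of_lt_of_le (by norm_num) hK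
  rcases (bd_theta_nonneg K u y w z).eq_or_lt with hθ | hθ
  · unfold HP HQ HR HS eta tau
    rw [← hθ]
    norm_num
  · have hNN : NN u y w z ≤ K ^ 2 := by
      unfold theta pos at hθ
      have h1 : 0 < 1 - NN u y w z / K ^ 2 := by
        rcases lt_max_iff.1 hθ with h | h
        · exact h
        · exact absurd h (lt_irrefl _)
      have h2 : NN u y w z / K ^ 2 ≤ 1 := by linarith only [h1]
      rwa [div_le_one (by positivity)] at h2
    have hNN' : k2 u ^ 2 + k1 y ^ 2 + w ^ 2 + z ^ 2 ≤ K ^ 2 := hNN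
    have ab : ∀ x : ℝ, x ^ 2 ≤ K ^ 2 → |x| ≤ K := fun x hx => abs_le_of_sq_le_sq hx hK0.le
    have a1 : |k2 u| ≤ K := ab _ (by linarith only [hNN', sq_nonneg (k1 y), sq_nonneg w, sq_nonneg z])
    have a2 : |k1 y| ≤ K := ab _ (by linarith only [hNN', sq_nonneg (k2 u), sq_nonneg w, sq_nonneg z])
    have a3 : |w| ≤ K := ab _ (by linarith only [hNN', sq_nonneg (k2 u), sq_nonneg (k1 y), sq_nonneg z])
    have a4 : |z| ≤ K := ab _ (by linarith only [hNN', sq_nonneg (k2 u), sq_nonneg (k1 y), sq_nonneg w])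
    have hK2 : 2 ≤ K := le_trans (by norm_num) hK
    have hu : |u| ≤ 2 * K := le_trans (bd_abs_le_k2 u) (by linarith)
    have hy : |y| ≤ 2 * K := le_trans (bd_abs_le_k1 y) (by linarith)
    have hw : |w| ≤ 2 * K := by linarith
    have hz : |z| ≤ 2 * K := by linarith
    have hδ := delta_bound hK h0 hh hu hy hw hz
    have hτ := tau_bound hK h0 hh hu hy hw hz
    have heta0 : 0 ≤ eta K u y w z := sq_nonneg _
    have heta1 : eta K u y w z ≤ 1 := by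
      unfold eta
      exact pow_le_one₀ (bd_theta_nonneg _ _ _ _ _) (bd_theta_le _ _ _ _ _)
    have heta2 : eta K u y w z ^ 2 ≤ 1 := pow_le_one₀ heta0 heta1
    have hτ2 : tau h K u y w z ^ 2 * K ^ 2 ≤ 25600 := by
      have := pow_le_pow_left₀ (abs_nonneg _) hτ 2
      rw [sq_abs, div_pow, le_div_iff₀ (by positivity)] at this
      linarith
    have key : ∀ η δ τ π : ℝ, (η * δ - τ * π) ^ 2 ≤ 11 * (η ^ 2 * δ ^ 2) + 11 / 10 * (τ ^ 2 * π ^ 2) := by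
      intro η δ τ π
      linarith only [sq_nonneg (10 * (η * δ) + τ * π)]
    have b1 := key (eta K u y w z) (Pf h u (pf h u y) - GaP h u y w z) (tau h K u y w z) (k2 u)
    have b2 := key (eta K u y w z) (4 * pf h u y - GaQ h u y w z) (tau h K u y w z) (k1 y)
    have b3 := key (eta K u y w z) (w - GaR h u y w z) (tau h K u y w z) w
    have b4 := key (eta K u y w z) (z - GaS h u y w z) (tau h K u y w z) z
    unfold HP HQ HR HS
    have c1 : eta K u y w z ^ 2 * ((Pf h u (pf h u y) - GaP h u y w z) ^ 2 +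
        (4 * pf h u y - GaQ h u y w z) ^ 2 + (w - GaR h u y w z) ^ 2
        + (z - GaS h u y w z) ^ 2) ≤ 1 * 81 := by
      apply mul_le_mul heta2 hδ (by positivity) (by norm_num)
    have c2 : tau h K u y w z ^ 2 * (k2 u ^ 2 + k1 y ^ 2 + w ^ 2 + z ^ 2) ≤ 25600 :=
      le_trans (mul_le_mul_of_nonneg_left hNN' (sq_nonneg _)) hτ2
    norm_num
    linarith


/-! kernel of area -/

theorem bd_abs_le_sqrt (a b c d : ℝ) :
    |a| ≤ Real.sqrt (a ^ 2 + b ^ 2 + c ^ 2 + d ^ 2) ∧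
    |b| ≤ Real.sqrt (a ^ 2 + b ^ 2 + c ^ 2 + d ^ 2) ∧
    |c| ≤ Real.sqrt (a ^ 2 + b ^ 2 + c ^ 2 + d ^ 2) ∧
    |d| ≤ Real.sqrt (a ^ 2 + b ^ 2 + c ^ 2 + d ^ 2) := by
  refine ⟨Real.abs_le_sqrt ?_, Real.abs_le_sqrt ?_, Real.abs_le_sqrt ?_, Real.abs_le_sqrt ?_⟩ <;>
    linarith only [sq_nonneg a, sq_nonneg b, sq_nonneg c, sq_nonneg d]

theorem bd_sq_diff {K t x x' : ℝ} (hK : 0 < K) (hx : |x| ≤ 2 * K) (hx' : |x'| ≤ 2 * K)
    (ht : |x' - x| ≤ t) : |x' ^ 2 - x ^ 2| ≤ 4 * K * t := by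
  have e : x' ^ 2 - x ^ 2 = (x' + x) * (x' - x) := by ring
  rw [e, abs_mul]
  have h1 : |x' + x| ≤ 4 * K := le_trans (abs_add_le _ _) (by linarith)
  exact mul_le_mul h1 ht (abs_nonneg _) (by positivity)

theorem bd_ds {h K u y w z u' y' w' z' t : ℝ} (hK : 10 ^ 10 ≤ K) (h0 : 0 < h)
    (hh : 10 ^ 60 * K ^ 40 * h ≤ 1)
    (hu : |u| ≤ 2 * K) (hy : |y| ≤ 2 * K) (hw : |w| ≤ 2 * K) (hz : |z| ≤ 2 * K)
    (hu' : |u'| ≤ 2 * K) (hy' : |y'| ≤ 2 * K) (hw' : |w'| ≤ 2 * K) (hz' : |z'| ≤ 2 * K)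
    (ta : |u' - u| ≤ t) (tb : |y' - y| ≤ t) (tc : |w' - w| ≤ t) (td : |z' - z| ≤ t)
    (σ : ℝ) (hσ : |σ| ≤ 1) :
    2 * K * |(1 + σ * (h * dd u' y' w' z')) / Det h u' y' w' z' -
      (1 + σ * (h * dd u y w z)) / Det h u y w z| ≤ t / 10 ^ 50 := by
  have hK0 : 0 < K := lt_of_lt_of_le (by norm_num) hK
  have ht0 : 0 ≤ t := le_trans (abs_nonneg _) ta
  have q1 := bd_sq_diff hK0 hu hu' ta
  have q2 := bd_sq_diff hK0 hy hy' tb
  have q3 := bd_sq_diff hK0 hw hw' tc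
  have q4 := bd_sq_diff hK0 hz hz' td
  have hS : |(u' ^ 2 + y' ^ 2 + w' ^ 2 + z' ^ 2) - (u ^ 2 + y ^ 2 + w ^ 2 + z ^ 2)| ≤
      16 * K * t := by
    rw [abs_le] at q1 q2 q3 q4 ⊢
    constructor <;> linarith only [q1, q2, q3, q4, q1.1, q1.2, q2.1, q2.2, q3.1, q3.2, q4.1, q4.2]
  have hd : |dd u' y' w' z' - dd u y w z| ≤ 16 * K * t := by
    unfold dd
    rw [abs_le] at q1 q2 q3 q4 ⊢
    constructor <;> linarith [q1.1, q1.2, q2.1, q2.2, q3.1, q3.2, q4.1, q4.2]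
  have hd1 : |dd u y w z| ≤ 16 * K ^ 2 := le_trans (bd_dd_abs u y w z) (bd_sum_le hu hy hw hz)
  have hd2 : |dd u' y' w' z'| ≤ 16 * K ^ 2 :=
    le_trans (bd_dd_abs u' y' w' z') (bd_sum_le hu' hy' hw' hz')
  have hdet : |Det h u y w z - Det h u' y' w' z'| ≤ 32 * h * K * t + 512 * h ^ 2 * K ^ 3 * t := by
    have e : Det h u y w z - Det h u' y' w' z' =
        -(2 * h * ((u' ^ 2 + y' ^ 2 + w' ^ 2 + z' ^ 2) - (u ^ 2 + y ^ 2 + w ^ 2 + z ^ 2)))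
        - h ^ 2 * ((dd u' y' w' z' + dd u y w z) * (dd u' y' w' z' - dd u y w z)) := by
      unfold Det; ring
    rw [e]
    refine le_trans (abs_sub _ _) ?_
    rw [abs_neg, abs_mul, abs_mul, abs_mul, abs_of_pos h0, abs_of_pos (by norm_num : (0:ℝ) < 2),
      abs_mul, abs_of_pos (by positivity : 0 < h ^ 2)]
    have h1 : |dd u' y' w' z' + dd u y w z| ≤ 32 * K ^ 2 := le_trans (abs_add_le _ _) (by linarith)
    calc 2 * h * |(u' ^ 2 + y' ^ 2 + w' ^ 2 + z' ^ 2) - (u ^ 2 + y ^ 2 + w ^ 2 + z ^ 2)| +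
        h ^ 2 * (|dd u' y' w' z' + dd u y w z| * |dd u' y' w' z' - dd u y w z|) ≤
        2 * h * (16 * K * t) + h ^ 2 * ((32 * K ^ 2) * (16 * K * t)) := by gcongr
      _ = _ := by ring
  have hD := bd_Det_ge h0 u y w z
  have hD' := bd_Det_ge h0 u' y' w' z'
  have hD0 : 0 < Det h u y w z := by linarith
  have hD0' : 0 < Det h u' y' w' z' := by linarith
  have hs' := bd_s hK h0 hh hu' hy' hw' hz' σ hσ
  have hs'' : |(1 + σ * (h * dd u' y' w' z')) / Det h u' y' w' z'| ≤ 2 := by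
    have h1 : (1:ℝ) / K ^ 20 ≤ 1 := by
      rw [div_le_one (by positivity)]
      exact one_le_pow₀ (le_trans (by norm_num) hK)
    rw [abs_le] at hs' ⊢
    constructor <;> linarith [hs'.1, hs'.2]
  have e : (1 + σ * (h * dd u' y' w' z')) / Det h u' y' w' z' -
      (1 + σ * (h * dd u y w z)) / Det h u y w z =
      ((1 + σ * (h * dd u' y' w' z')) / Det h u' y' w' z') *
        ((Det h u y w z - Det h u' y' w' z') / Det h u y w z) +
        σ * (h * (dd u' y' w' z' - dd u y w z)) / Det h u y w z := by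
    field_simp
    ring
  have h1 : |(Det h u y w z - Det h u' y' w' z') / Det h u y w z| ≤
      32 * h * K * t + 512 * h ^ 2 * K ^ 3 * t := by
    rw [abs_div, abs_of_pos hD0]
    exact le_trans (div_le_self (abs_nonneg _) hD) hdet
  have h2 : |σ * (h * (dd u' y' w' z' - dd u y w z)) / Det h u y w z| ≤ 16 * h * K * t := by
    rw [abs_div, abs_of_pos hD0]
    refine le_trans (div_le_self (abs_nonneg _) hD) ?_
    rw [abs_mul, abs_mul, abs_of_pos h0]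
    calc |σ| * (h * |dd u' y' w' z' - dd u y w z|) ≤ 1 * (h * (16 * K * t)) := by gcongr
      _ = 16 * h * K * t := by ring
  have h3 : |(1 + σ * (h * dd u' y' w' z')) / Det h u' y' w' z' -
      (1 + σ * (h * dd u y w z)) / Det h u y w z| ≤
      2 * (32 * h * K * t + 512 * h ^ 2 * K ^ 3 * t) + 16 * h * K * t := by
    rw [e]
    refine le_trans (abs_add_le _ _) ?_
    rw [abs_mul]
    have : |(1 + σ * (h * dd u' y' w' z')) / Det h u' y' w' z'| *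
        |(Det h u y w z - Det h u' y' w' z') / Det h u y w z| ≤
        2 * (32 * h * K * t + 512 * h ^ 2 * K ^ 3 * t) :=
      mul_le_mul hs'' h1 (abs_nonneg _) (by norm_num)
    linarith
  have h2K := bd_hpow hK h0 hh (j := 2) (by norm_num)
  have h4K := bd_hpow hK h0 hh (j := 4) (by norm_num)
  have hh1 := bd_h_le hK h0 hh
  calc 2 * K * |(1 + σ * (h * dd u' y' w' z')) / Det h u' y' w' z' -
      (1 + σ * (h * dd u y w z)) / Det h u y w z| ≤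
      2 * K * (2 * (32 * h * K * t + 512 * h ^ 2 * K ^ 3 * t) + 16 * h * K * t) := by gcongr
    _ = (160 * (K ^ 2 * h) + 2048 * (h * (K ^ 4 * h))) * t := by ring
    _ ≤ (160 * (1 / 10 ^ 60) + 2048 * ((1 / 10 ^ 60) * (1 / 10 ^ 60))) * t := by gcongr
    _ ≤ (1 / 10 ^ 50) * t := by gcongr; norm_num
    _ = t / 10 ^ 50 := by ring

theorem bd_inv_pow {K : ℝ} (hK : 10 ^ 10 ≤ K) : 1 / K ^ 20 ≤ 1 / 10 ^ 50 := by
  have h1 : (10:ℝ) ^ 50 ≤ K ^ 20 := by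
    calc (10:ℝ) ^ 50 ≤ (10 ^ 10) ^ 20 := by norm_num
      _ ≤ K ^ 20 := by gcongr
  exact one_div_le_one_div_of_le (by positivity) h1

theorem bd_dGa1 {K t s s' x x' : ℝ} (hx : |x| ≤ 2 * K)
    (ht : |x' - x| ≤ t) (h1 : |s' - 1| ≤ 1 / 10 ^ 50) (h2 : 2 * K * |s' - s| ≤ t / 10 ^ 50) :
    |(x' * s' - x * s) - (x' - x)| ≤ t / 10 ^ 40 := by
  have ht0 : 0 ≤ t := le_trans (abs_nonneg _) ht
  have e : (x' * s' - x * s) - (x' - x) = (x' - x) * (s' - 1) + x * (s' - s) := by ring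
  rw [e]
  refine le_trans (abs_add_le _ _) ?_
  rw [abs_mul, abs_mul]
  have a1 : |x' - x| * |s' - 1| ≤ t * (1 / 10 ^ 50) := by gcongr
  have a2 : |x| * |s' - s| ≤ 2 * K * |s' - s| := by gcongr
  have : t * (1 / 10 ^ 50) + t / 10 ^ 50 ≤ t / 10 ^ 40 := by
    have : t * (1 / 10 ^ 50) + t / 10 ^ 50 = t * (2 / 10 ^ 50) := by ring
    rw [this, div_eq_mul_inv t]
    gcongr
    norm_num
  linarith

theorem bd_dGa {h K u y w z u' y' w' z' t : ℝ} (hK : 10 ^ 10 ≤ K) (h0 : 0 < h)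
    (hh : 10 ^ 60 * K ^ 40 * h ≤ 1)
    (hu : |u| ≤ 2 * K) (hy : |y| ≤ 2 * K) (hw : |w| ≤ 2 * K) (hz : |z| ≤ 2 * K)
    (hu' : |u'| ≤ 2 * K) (hy' : |y'| ≤ 2 * K) (hw' : |w'| ≤ 2 * K) (hz' : |z'| ≤ 2 * K)
    (ta : |u' - u| ≤ t) (tb : |y' - y| ≤ t) (tc : |w' - w| ≤ t) (td : |z' - z| ≤ t) :
    |(GaP h u' y' w' z' - GaP h u y w z) - (u' - u)| ≤ t / 10 ^ 40 ∧
    |(GaQ h u' y' w' z' - GaQ h u y w z) - (y' - y)| ≤ t / 10 ^ 40 ∧
    |(GaR h u' y' w' z' - GaR h u y w z) - (w' - w)| ≤ t / 10 ^ 40 ∧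
    |(GaS h u' y' w' z' - GaS h u y w z) - (z' - z)| ≤ t / 10 ^ 40 := by
  have ds := fun σ hσ => bd_ds hK h0 hh hu hy hw hz hu' hy' hw' hz' ta tb tc td σ hσ
  have s' := fun σ hσ => le_trans (bd_s hK h0 hh hu' hy' hw' hz' σ hσ) (bd_inv_pow hK)
  have d1 := ds 1 (by norm_num)
  have d2 := ds (-1) (by norm_num)
  have e1 := s' 1 (by norm_num)
  have e2 := s' (-1) (by norm_num)
  have r1 := bd_dGa1 hu ta e1 d1
  have r2 := bd_dGa1 hy tb e2 d2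
  have r3 := bd_dGa1 hw tc e2 d2
  have r4 := bd_dGa1 hz td e1 d1
  unfold GaP GaQ GaR GaS
  simp only [one_mul, neg_mul, ← sub_eq_add_neg, ← mul_div_assoc] at r1 r2 r3 r4
  exact ⟨r1, r2, r3, r4⟩

theorem bd_dot_abs {a b c d P Q R S t B : ℝ} (ht : 0 ≤ t)
    (ha : |a| ≤ t) (hb : |b| ≤ t) (hc : |c| ≤ t) (hd : |d| ≤ t)
    (hP : |P| ≤ B) (hQ : |Q| ≤ B) (hR : |R| ≤ B) (hS : |S| ≤ B) :
    |a * P| ≤ t * B ∧ |b * Q| ≤ t * B ∧ |c * R| ≤ t * B ∧ |d * S| ≤ t * B := by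
  refine ⟨?_, ?_, ?_, ?_⟩ <;> rw [abs_mul] <;> gcongr

theorem bd_Ker {h K m a b c d P Q R S P' Q' R' S' t : ℝ} (h0 : 0 < h)
    (hK2 : K ^ 2 * h ≤ 1 / 10 ^ 60) (hh1 : h ≤ 1 / 10 ^ 60) (hK0 : 0 < K)
    (hm0 : 0 ≤ m) (hm : m ≤ 4) (ht0 : 0 ≤ t) (ht : t ^ 2 = a ^ 2 + b ^ 2 + c ^ 2 + d ^ 2)
    (ha : |a| ≤ t) (hb : |b| ≤ t) (hc : |c| ≤ t) (hd : |d| ≤ t)
    (hP : |P| ≤ 3 * K) (hQ : |Q| ≤ 3 * K) (hR : |R| ≤ 3 * K) (hS : |S| ≤ 3 * K)
    (hP' : |P'| ≤ 3 * K) (hQ' : |Q'| ≤ 3 * K) (hR' : |R'| ≤ 3 * K) (hS' : |S'| ≤ 3 * K)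
    (dP : |(P' - P) - a| ≤ t / 10 ^ 40) (dQ : |(Q' - Q) - b| ≤ t / 10 ^ 40)
    (dR : |(R' - R) - c| ≤ t / 10 ^ 40) (dS : |(S' - S) - d| ≤ t / 10 ^ 40) :
    3 / 4 * t ^ 2 ≤ Ker h m a b c d P Q R S P' Q' R' S' := by
  have ht2 : 0 ≤ t ^ 2 := sq_nonneg t
  have hB : (0:ℝ) ≤ 3 * K := by positivity
  -- the main term
  have m1 : t ^ 2 - t ^ 2 * (4 / 10 ^ 40) ≤
      a * (P' - P) + b * (Q' - Q) + c * (R' - R) + d * (S' - S) := by
    have e : a * (P' - P) + b * (Q' - Q) + c * (R' - R) + d * (S' - S) =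
      t ^ 2 + (a * ((P' - P) - a) + b * ((Q' - Q) - b) + c * ((R' - R) - c)
        + d * ((S' - S) - d)) := by rw [ht]; ring
    rw [e]
    obtain ⟨q1, q2, q3, q4⟩ := bd_dot_abs ht0 ha hb hc hd dP dQ dR dS
    have := (abs_le.1 q1).1
    have := (abs_le.1 q2).1
    have := (abs_le.1 q3).1
    have := (abs_le.1 q4).1
    have e2 : t * (t / 10 ^ 40) = t ^ 2 * (1 / 10 ^ 40) := by ring
    rw [e2] at *
    linarith
  -- quadratic term 1
  have dot : ∀ A B C D : ℝ, |A| ≤ t → |B| ≤ t → |C| ≤ t → |D| ≤ t → ∀ p q r s : ℝ,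
      |p| ≤ 3 * K → |q| ≤ 3 * K → |r| ≤ 3 * K → |s| ≤ 3 * K →
      |A * p + B * q + C * r + D * s| ≤ 12 * K * t := by
    intro A B C D hA hB hC hD p q r s hp hq hr hs
    obtain ⟨q1, q2, q3, q4⟩ := bd_dot_abs ht0 hA hB hC hD hp hq hr hs
    rw [abs_le] at q1 q2 q3 q4 ⊢
    constructor <;> linarith only [q1, q2, q3, q4, q1.1, q1.2, q2.1, q2.2, q3.1, q3.2, q4.1, q4.2]
  have hq : |a ^ 2 - b ^ 2 - c ^ 2 + d ^ 2| ≤ t ^ 2 := by
    rw [ht, abs_le]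
    constructor <;> linarith only [sq_nonneg a, sq_nonneg b, sq_nonneg c, sq_nonneg d]
  have det4 : ∀ x y z w x' y' z' w' : ℝ, |x| ≤ 3 * K → |y| ≤ 3 * K → |z| ≤ 3 * K → |w| ≤ 3 * K →
      |x'| ≤ 3 * K → |y'| ≤ 3 * K → |z'| ≤ 3 * K → |w'| ≤ 3 * K →
      |x * x' - y * y' - z * z' + w * w'| ≤ 36 * K ^ 2 ∧
      |x * x' - y * y' + z * z' - w * w'| ≤ 36 * K ^ 2 := by
    intro x y z w x' y' z' w' hx hy hz hw hx' hy' hz' hw'
    obtain ⟨q1, q2, q3, q4⟩ := bd_dot_abs hB hx hy hz hw hx' hy' hz' hw'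
    have e : 3 * K * (3 * K) = 9 * K ^ 2 := by ring
    rw [e] at q1 q2 q3 q4
    rw [abs_le] at q1 q2 q3 q4
    rw [abs_le, abs_le]
    refine ⟨⟨?_, ?_⟩, ?_, ?_⟩ <;> linarith only [q1, q2, q3, q4, q1.1, q1.2, q2.1, q2.2, q3.1, q3.2, q4.1, q4.2]
  have nb : |-(a)| ≤ t := by rwa [abs_neg]
  have Q1 : |2 * (a * P + b * Q + c * R + d * S) * (a * P' + b * Q' + c * R' + d * S')
        - (a ^ 2 - b ^ 2 - c ^ 2 + d ^ 2) * (P * P' - Q * Q' - R * R' + S * S')| ≤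
        324 * K ^ 2 * t ^ 2 := by
    refine le_trans (abs_sub _ _) ?_
    rw [abs_mul, abs_mul, abs_mul, abs_of_pos (by norm_num : (0:ℝ) < 2)]
    have r1 := dot a b c d ha hb hc hd P Q R S hP hQ hR hS
    have r2 := dot a b c d ha hb hc hd P' Q' R' S' hP' hQ' hR' hS'
    have r3 := (det4 P Q R S P' Q' R' S' hP hQ hR hS hP' hQ' hR' hS').1
    calc 2 * |a * P + b * Q + c * R + d * S| * |a * P' + b * Q' + c * R' + d * S'|
        + |a ^ 2 - b ^ 2 - c ^ 2 + d ^ 2| * |P * P' - Q * Q' - R * R' + S * S'| ≤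
        2 * (12 * K * t) * (12 * K * t) + t ^ 2 * (36 * K ^ 2) := by gcongr
      _ = 324 * K ^ 2 * t ^ 2 := by ring
  have nd : |-d| ≤ t := by rwa [abs_neg]
  have nc : |-c| ≤ t := by rwa [abs_neg]
  have Q2 : |2 * (b * P + a * Q - d * R - c * S) * (a * P' + b * Q' + c * R' + d * S')
        - (a ^ 2 - b ^ 2 - c ^ 2 + d ^ 2) * (Q * P' - P * Q' + S * R' - R * S')| ≤
        324 * K ^ 2 * t ^ 2 := by
    refine le_trans (abs_sub _ _) ?_
    rw [abs_mul, abs_mul, abs_mul, abs_of_pos (by norm_num : (0:ℝ) < 2)]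
    have r1 := dot b a (-d) (-c) hb ha nd nc P Q R S hP hQ hR hS
    have e1 : b * P + a * Q + -d * R + -c * S = b * P + a * Q - d * R - c * S := by ring
    rw [e1] at r1
    have r2 := dot a b c d ha hb hc hd P' Q' R' S' hP' hQ' hR' hS'
    have r3 := (det4 Q P S R P' Q' R' S' hQ hP hS hR hP' hQ' hR' hS').2
    calc 2 * |b * P + a * Q - d * R - c * S| * |a * P' + b * Q' + c * R' + d * S'|
        + |a ^ 2 - b ^ 2 - c ^ 2 + d ^ 2| * |Q * P' - P * Q' + S * R' - R * S'| ≤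
        2 * (12 * K * t) * (12 * K * t) + t ^ 2 * (36 * K ^ 2) := by gcongr
      _ = 324 * K ^ 2 * t ^ 2 := by ring
  -- linear twist term
  have big : ∀ x X : ℝ, |x| ≤ t → |X - x| ≤ t / 10 ^ 40 → |X| ≤ 2 * t := by
    intro x X hx hX
    have h1 : t / 10 ^ 40 ≤ t := div_le_self ht0 (by norm_num)
    have h2 : |X| ≤ |X - x| + |x| := by
      calc |X| = |(X - x) + x| := by ring_nf
        _ ≤ _ := abs_add_le _ _
    linarith only [ht0, hx, hX, h2]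
  have b1 := big a (P' - P) ha dP
  have b2 := big b (Q' - Q) hb dQ
  have b3 := big c (R' - R) hc dR
  have b4 := big d (S' - S) hd dS
  have L1 : |b * (P' - P) + a * (Q' - Q) - d * (R' - R) - c * (S' - S)| ≤ 8 * t ^ 2 := by
    obtain ⟨q1, q2, q3, q4⟩ := bd_dot_abs ht0 hb ha hd hc b1 b2 b3 b4
    have e : t * (2 * t) = 2 * t ^ 2 := by ring
    rw [e] at q1 q2 q3 q4
    rw [abs_le] at q1 q2 q3 q4 ⊢
    constructor <;> linarith only [q1, q2, q3, q4, q1.1, q1.2, q2.1, q2.2, q3.1, q3.2, q4.1, q4.2]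
  set M1 := a * (P' - P) + b * (Q' - Q) + c * (R' - R) + d * (S' - S) with hM1
  set X1 := 2 * (a * P + b * Q + c * R + d * S) * (a * P' + b * Q' + c * R' + d * S')
        - (a ^ 2 - b ^ 2 - c ^ 2 + d ^ 2) * (P * P' - Q * Q' - R * R' + S * S') with hX1
  set X2 := 2 * (b * P + a * Q - d * R - c * S) * (a * P' + b * Q' + c * R' + d * S')
        - (a ^ 2 - b ^ 2 - c ^ 2 + d ^ 2) * (Q * P' - P * Q' + S * R' - R * S') with hX2
  set L := b * (P' - P) + a * (Q' - Q) - d * (R' - R) - c * (S' - S) with hL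
  have eK : Ker h m a b c d P Q R S P' Q' R' S' = M1 + h * X1 + h * m * (L + h * X2) := by
    unfold Ker
    rw [hM1, hX1, hX2, hL]
  rw [eK]
  have f1 : |h * X1| ≤ t ^ 2 / 100 := by
    rw [abs_mul, abs_of_pos h0]
    calc h * |X1| ≤ h * (324 * K ^ 2 * t ^ 2) := by gcongr
      _ = 324 * (K ^ 2 * h) * t ^ 2 := by ring
      _ ≤ 324 * (1 / 10 ^ 60) * t ^ 2 := by gcongr
      _ ≤ 1 / 100 * t ^ 2 := by gcongr; norm_num
      _ = t ^ 2 / 100 := by ring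
  have f2 : |h * X2| ≤ t ^ 2 / 100 := by
    rw [abs_mul, abs_of_pos h0]
    calc h * |X2| ≤ h * (324 * K ^ 2 * t ^ 2) := by gcongr
      _ = 324 * (K ^ 2 * h) * t ^ 2 := by ring
      _ ≤ 324 * (1 / 10 ^ 60) * t ^ 2 := by gcongr
      _ ≤ 1 / 100 * t ^ 2 := by gcongr; norm_num
      _ = t ^ 2 / 100 := by ring
  have f3 : |h * m * (L + h * X2)| ≤ t ^ 2 / 100 := by
    rw [abs_mul, abs_of_nonneg (by positivity : 0 ≤ h * m)]
    have : |L + h * X2| ≤ 9 * t ^ 2 := by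
      refine le_trans (abs_add_le _ _) ?_
      linarith only [ht2, L1, f2]
    calc h * m * |L + h * X2| ≤ (1 / 10 ^ 60) * 4 * (9 * t ^ 2) := by gcongr
      _ ≤ 1 / 100 * t ^ 2 := by
        have h5 : (1 / 10 ^ 60 : ℝ) * 4 * (9 * t ^ 2) = (36 / 10 ^ 60) * t ^ 2 := by ring
        rw [h5]
        exact mul_le_mul_of_nonneg_right (by norm_num) ht2
      _ = t ^ 2 / 100 := by ring
  have g1 := (abs_le.1 f1).1
  have g3 := (abs_le.1 f3).1
  have g4 : t ^ 2 * (4 / 10 ^ 40) ≤ t ^ 2 * (1 / 100) :=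
    mul_le_mul_of_nonneg_left (by norm_num) ht2
  linarith only [ht2, m1, g1, g3]

/-- lower bound for the (twisted) kernel of area -/
theorem aa_lower {h K m u y w z u' y' w' z' : ℝ} (hK : 10 ^ 10 ≤ K) (h0 : 0 < h)
    (hh : 10 ^ 60 * K ^ 40 * h ≤ 1) (hm0 : 0 ≤ m) (hm : m ≤ 4)
    (hu : |u| ≤ 2 * K) (hy : |y| ≤ 2 * K) (hw : |w| ≤ 2 * K) (hz : |z| ≤ 2 * K)
    (hu' : |u'| ≤ 2 * K) (hy' : |y'| ≤ 2 * K) (hw' : |w'| ≤ 2 * K) (hz' : |z'| ≤ 2 * K) :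
    3 / 4 * ((u' - u) ^ 2 + (y' - y) ^ 2 + (w' - w) ^ 2 + (z' - z) ^ 2)
      ≤ Ker h m (u' - u) (y' - y) (w' - w) (z' - z)
        (GaP h u y w z) (GaQ h u y w z) (GaR h u y w z) (GaS h u y w z)
        (GaP h u' y' w' z') (GaQ h u' y' w' z') (GaR h u' y' w' z') (GaS h u' y' w' z') := by
  have hK0 : 0 < K := lt_of_lt_of_le (by norm_num) hK
  obtain ⟨ta, tb, tc, td⟩ := bd_abs_le_sqrt (u' - u) (y' - y) (w' - w) (z' - z)
  set t := Real.sqrt ((u' - u) ^ 2 + (y' - y) ^ 2 + (w' - w) ^ 2 + (z' - z) ^ 2) with ht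
  have ht0 : 0 ≤ t := Real.sqrt_nonneg _
  have ht2 : t ^ 2 = (u' - u) ^ 2 + (y' - y) ^ 2 + (w' - w) ^ 2 + (z' - z) ^ 2 :=
    Real.sq_sqrt (by positivity)
  obtain ⟨d1, d2, d3, d4⟩ := bd_dGa hK h0 hh hu hy hw hz hu' hy' hw' hz' ta tb tc td
  have small : ∀ x X : ℝ, |x| ≤ 2 * K → |X - x| ≤ |x| / K ^ 20 → |X| ≤ 3 * K := by
    intro x X hx hX
    have h1 : |x| / K ^ 20 ≤ |x| * (1 / 10 ^ 50) := by
      rw [div_eq_mul_one_div]
      gcongr ?_ * ?_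
      exact bd_inv_pow hK
    have h2 : |X| ≤ |X - x| + |x| := by
      calc |X| = |(X - x) + x| := by ring_nf
        _ ≤ _ := abs_add_le _ _
    have h3 : |x| * (1 / 10 ^ 50) ≤ 2 * K * (1 / 10 ^ 50) := by gcongr
    have h4 : 2 * K * (1 / 10 ^ 50) ≤ K := by
      have : 2 * K * (1 / 10 ^ 50) = K * (2 / 10 ^ 50) := by ring
      rw [this]
      calc K * (2 / 10 ^ 50) ≤ K * 1 := by gcongr; norm_num
        _ = K := mul_one K
    linarith only [hK, hx, hX, h1, h2]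
  obtain ⟨g1, g2, g3, g4⟩ := Ga_close hK h0 hh hu hy hw hz
  obtain ⟨g1', g2', g3', g4'⟩ := Ga_close hK h0 hh hu' hy' hw' hz'
  rw [← ht2]
  exact bd_Ker h0 (bd_hpow hK h0 hh (j := 2) (by norm_num)) (bd_h_le hK h0 hh) hK0 hm0 hm ht0 ht2
    ta tb tc td (small _ _ hu g1) (small _ _ hy g2) (small _ _ hw g3) (small _ _ hz g4)
    (small _ _ hu' g1') (small _ _ hy' g2') (small _ _ hw' g3') (small _ _ hz' g4') d1 d2 d3 d4

end EC
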