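import Mathlib
import Pool.Agent.Helper35.EC.Zone

/-!
# MP_0db605_an, piece EC-Z3 : the errors E1 and E4
-/

namespace EC

/-- Cauchy-Schwarz in four variables -/
private lemma cs4 (a b c d p q r s : ℝ) :
    (a * p + b * q + c * r + d * s) ^ 2
      ≤ (a ^ 2 + b ^ 2 + c ^ 2 + d ^ 2) * (p ^ 2 + q ^ 2 + r ^ 2 + s ^ 2) := by
  have e : (a ^ 2 + b ^ 2 + c ^ 2 + d ^ 2) * (p ^ 2 + q ^ 2 + r ^ 2 + s ^ 2)
      - (a * p + b * q + c * r + d * s) ^ 2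
      = (a * q - b * p) ^ 2 + (a * r - c * p) ^ 2 + (a * s - d * p) ^ 2
        + (b * r - c * q) ^ 2 + (b * s - d * q) ^ 2 + (c * s - d * r) ^ 2 := by ring
  have := sq_nonneg (a * q - b * p)
  have := sq_nonneg (a * r - c * p)
  have := sq_nonneg (a * s - d * p)
  have := sq_nonneg (b * r - c * q)
  have := sq_nonneg (b * s - d * q)
  have := sq_nonneg (c * s - d * r)
  linarith

private lemma sum4_sq (x y z w : ℝ) :
    (x + y + z + w) ^ 2 ≤ 4 * (x ^ 2 + y ^ 2 + z ^ 2 + w ^ 2) := by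
  have := cs4 1 1 1 1 x y z w
  linarith

private lemma add_sq_two (x y : ℝ) : (x + y) ^ 2 ≤ 2 * (x ^ 2 + y ^ 2) := by
  nlinarith [sq_nonneg (x - y)]

private lemma h_small {K h : ℝ} (hK : 10 ^ 15 ≤ K) (h0 : 0 < h) (hh : 10 ^ 60 * K ^ 40 * h ≤ 1) :
    h ≤ 1 / 10 ^ 6 := by
  have hK1 : (1 : ℝ) ≤ K := le_trans (by norm_num) hK
  have h1 : (1 : ℝ) ≤ K ^ 40 := one_le_pow₀ hK1
  have h2 : 10 ^ 60 * 1 * h ≤ 10 ^ 60 * K ^ 40 * h := by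
    apply mul_le_mul_of_nonneg_right _ h0.le
    exact mul_le_mul_of_nonneg_left h1 (by norm_num)
  have h3 : (10 : ℝ) ^ 60 * h ≤ 1 := by linarith
  rw [le_div_iff₀ (by norm_num)]
  calc h * 10 ^ 6 ≤ h * 10 ^ 60 := by
        apply mul_le_mul_of_nonneg_left _ h0.le
        norm_num
    _ = 10 ^ 60 * h := by ring
    _ ≤ 1 := h3

private lemma Lam_sq {h m a b c d P Q R S : ℝ} (h0 : 0 < h) (h1 : h ≤ 1 / 10 ^ 6)
    (hm0 : 0 ≤ m) (hm : m ≤ 4) :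
    (Lam h m a b c d P Q R S) ^ 2
      ≤ 101 / 100 * ((a ^ 2 + b ^ 2 + c ^ 2 + d ^ 2) * (P ^ 2 + Q ^ 2 + R ^ 2 + S ^ 2)) := by
  set N := (a ^ 2 + b ^ 2 + c ^ 2 + d ^ 2) * (P ^ 2 + Q ^ 2 + R ^ 2 + S ^ 2) with hN
  have hN0 : 0 ≤ N := by positivity
  have e : Lam h m a b c d P Q R S
      = (a * P + b * Q + c * R + d * S) + h * m * (b * P + a * Q + -d * R + -c * S) := by
    unfold Lam; ring
  have c1 := cs4 a b c d P Q R S
  have c2 : (b * P + a * Q + -d * R + -c * S) ^ 2 ≤ N := by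
    have := cs4 b a (-d) (-c) P Q R S
    have e2 : (b ^ 2 + a ^ 2 + (-d) ^ 2 + (-c) ^ 2) * (P ^ 2 + Q ^ 2 + R ^ 2 + S ^ 2) = N := by
      rw [hN]; ring
    linarith
  rw [← hN] at c1
  have hhm0 : 0 ≤ h * m := by positivity
  have hhm : h * m ≤ 1 / 10 ^ 5 := by
    calc h * m ≤ 1 / 10 ^ 6 * 4 := mul_le_mul h1 hm hm0 (by norm_num)
      _ ≤ 1 / 10 ^ 5 := by norm_num
  set x := a * P + b * Q + c * R + d * S
  set y := b * P + a * Q + -d * R + -c * S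
  rw [e]
  have h3 : 2 * (x * y) ≤ x ^ 2 + y ^ 2 := by nlinarith [sq_nonneg (x - y)]
  have h4 : (x + h * m * y) ^ 2 = x ^ 2 + h * m * (2 * (x * y)) + (h * m) ^ 2 * y ^ 2 := by ring
  have h5 : h * m * (2 * (x * y)) ≤ h * m * (2 * N) :=
    mul_le_mul_of_nonneg_left (by linarith) hhm0
  have h6 : h * m * (2 * N) ≤ 1 / 10 ^ 5 * (2 * N) :=
    mul_le_mul_of_nonneg_right hhm (by positivity)
  have h7 : (h * m) ^ 2 * y ^ 2 ≤ (1 / 10 ^ 5) ^ 2 * N :=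
    mul_le_mul (pow_le_pow_left₀ hhm0 hhm 2) c2 (sq_nonneg _) (by norm_num)
  rw [h4]
  linarith

/-- `x ≤ c (S + y)` from `x² ≤ 4c² S y` -/
private lemma abs_le_of_sq {x A B c : ℝ} (hA : 0 ≤ A) (hB : 0 ≤ B) (hc : 0 ≤ c)
    (h : x ^ 2 ≤ 4 * c ^ 2 * (A * B)) : |x| ≤ c * (A + B) := by
  apply abs_le_of_sq_le_sq _ (by positivity)
  have h1 : 4 * (A * B) ≤ (A + B) ^ 2 := by nlinarith [sq_nonneg (A - B)]
  calc x ^ 2 ≤ 4 * c ^ 2 * (A * B) := h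
    _ = c ^ 2 * (4 * (A * B)) := by ring
    _ ≤ c ^ 2 * (A + B) ^ 2 := mul_le_mul_of_nonneg_left h1 (sq_nonneg _)
    _ = (c * (A + B)) ^ 2 := by ring

theorem err1 {h K m a b c d S E E' s2 dp D1 D2 D3 D4 D1' D2' D3' D4' : ℝ}
    (hK : 10 ^ 15 ≤ K) (h0 : 0 < h) (hh : 10 ^ 60 * K ^ 40 * h ≤ 1) (hm0 : 0 ≤ m) (hm : m ≤ 4)
    (hS : 0 ≤ S) (hs2 : 0 ≤ s2) (hdp : 0 ≤ dp)
    (hE : (E' - E) ^ 2 ≤ 16 / K ^ 4 * s2 * dp)
    (hdpS : dp ≤ 10 ^ 6 * S + (c ^ 2 + d ^ 2))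
    (hD : D1 ^ 2 + D2 ^ 2 + D3 ^ 2 + D4 ^ 2 ≤ 81) (hD' : D1' ^ 2 + D2' ^ 2 + D3' ^ 2 + D4' ^ 2 ≤ 81) :
    |(E' - E) * ((Lam h m a b c d D1 D2 D3 D4 + Lam h m a b c d D1' D2' D3' D4') / 2)|
      ≤ 1 / 1000 * (S + (c ^ 2 + d ^ 2) + s2 * (a ^ 2 + b ^ 2 + c ^ 2 + d ^ 2) / K ^ 2) := by
  have hh1 := h_small hK h0 hh
  have hK0 : 0 < K := lt_of_lt_of_le (by norm_num) hK
  have L1 := Lam_sq (a := a) (b := b) (c := c) (d := d) (P := D1) (Q := D2) (R := D3) (S := D4)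
    h0 hh1 hm0 hm
  have L2 := Lam_sq (a := a) (b := b) (c := c) (d := d) (P := D1') (Q := D2') (R := D3') (S := D4')
    h0 hh1 hm0 hm
  set Λ := Lam h m a b c d D1 D2 D3 D4
  set Λ' := Lam h m a b c d D1' D2' D3' D4'
  set Y2 := a ^ 2 + b ^ 2 + c ^ 2 + d ^ 2 with hY2
  have hY : 0 ≤ Y2 := by positivity
  set Z := c ^ 2 + d ^ 2 with hZ
  have hZ0 : 0 ≤ Z := by positivity
  have L1' : Λ ^ 2 ≤ 100 * Y2 := by
    have : Y2 * (D1 ^ 2 + D2 ^ 2 + D3 ^ 2 + D4 ^ 2) ≤ Y2 * 81 := mul_le_mul_of_nonneg_left hD hY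
    linarith
  have L2' : Λ' ^ 2 ≤ 100 * Y2 := by
    have : Y2 * (D1' ^ 2 + D2' ^ 2 + D3' ^ 2 + D4' ^ 2) ≤ Y2 * 81 :=
      mul_le_mul_of_nonneg_left hD' hY
    linarith
  have L3 : ((Λ + Λ') / 2) ^ 2 ≤ 100 * Y2 := by nlinarith [sq_nonneg (Λ - Λ')]
  apply abs_le_of_sq (by positivity) (by positivity) (by norm_num)
  have h1 : dp ≤ 10 ^ 6 * (S + Z) := by linarith
  calc ((E' - E) * ((Λ + Λ') / 2)) ^ 2 = (E' - E) ^ 2 * ((Λ + Λ') / 2) ^ 2 := by ring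
    _ ≤ (16 / K ^ 4 * s2 * dp) * (100 * Y2) := mul_le_mul hE L3 (sq_nonneg _) (by positivity)
    _ ≤ (16 / K ^ 4 * s2 * (10 ^ 6 * (S + Z))) * (100 * Y2) := by
        apply mul_le_mul_of_nonneg_right _ (by positivity)
        apply mul_le_mul_of_nonneg_left h1 (by positivity)
    _ = (16 * 10 ^ 8 / K ^ 2) * ((S + Z) * (s2 * Y2 / K ^ 2)) := by
        field_simp
        ring
    _ ≤ (4 * (1 / 1000) ^ 2) * ((S + Z) * (s2 * Y2 / K ^ 2)) := by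
        apply mul_le_mul_of_nonneg_right _ (by positivity)
        rw [div_le_iff₀ (by positivity)]
        have : (10 ^ 15 : ℝ) ^ 2 ≤ K ^ 2 := pow_le_pow_left₀ (by norm_num) hK 2
        have h9 : (16 * 10 ^ 8 : ℝ) ≤ 4 * (1 / 1000) ^ 2 * (10 ^ 15 : ℝ) ^ 2 := by norm_num
        linarith [mul_le_mul_of_nonneg_left this (by norm_num : (0 : ℝ) ≤ 4 * (1 / 1000) ^ 2)]

/-- the linear form in the cutoff vector, all pairs -/
private lemma Lam_cut {h m a b c d S p1 p2 p3 p4 : ℝ} (h0 : 0 < h) (h1 : h ≤ 1 / 10 ^ 6)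
    (hm0 : 0 ≤ m) (hm : m ≤ 4) (hS : 0 ≤ S)
    (HU : p1 ≠ 0 → a ^ 2 + b ^ 2 ≤ 10 ^ 3 * S)
    (HV : p2 ≠ 0 → b ^ 2 + h * a ^ 2 ≤ 10 ^ 5 * S) :
    (Lam h m a b c d p1 p2 p3 p4) ^ 2
      ≤ 10 ^ 6 * ((S + (c ^ 2 + d ^ 2)) * (p1 ^ 2 + p2 ^ 2 + p3 ^ 2 + p4 ^ 2)) := by
  have e : Lam h m a b c d p1 p2 p3 p4
      = (a * p1 + b * p2 + c * p3 + d * p4) + h * m * (b * p1 + a * p2 + -d * p3 + -c * p4) := by
    unfold Lam; ring
  set Z := c ^ 2 + d ^ 2 with hZ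
  have hZ0 : 0 ≤ Z := by positivity
  have hc : c ^ 2 ≤ Z := by rw [hZ]; nlinarith [sq_nonneg d]
  have hd : d ^ 2 ≤ Z := by rw [hZ]; nlinarith [sq_nonneg c]
  set T := S + Z with hT
  have hT0 : 0 ≤ T := by positivity
  -- squares of the products
  have U1 : (a * p1) ^ 2 ≤ 10 ^ 5 * T * p1 ^ 2 := by
    by_cases hp : p1 = 0
    · simp [hp]
    · have := HU hp
      have h2 : a ^ 2 ≤ 10 ^ 5 * T := by nlinarith [sq_nonneg b]
      calc (a * p1) ^ 2 = a ^ 2 * p1 ^ 2 := by ring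
        _ ≤ _ := mul_le_mul_of_nonneg_right h2 (sq_nonneg _)
  have U2 : (b * p1) ^ 2 ≤ 10 ^ 5 * T * p1 ^ 2 := by
    by_cases hp : p1 = 0
    · simp [hp]
    · have := HU hp
      have h2 : b ^ 2 ≤ 10 ^ 5 * T := by nlinarith [sq_nonneg a]
      calc (b * p1) ^ 2 = b ^ 2 * p1 ^ 2 := by ring
        _ ≤ _ := mul_le_mul_of_nonneg_right h2 (sq_nonneg _)
  have U3 : (b * p2) ^ 2 ≤ 10 ^ 5 * T * p2 ^ 2 := by
    by_cases hp : p2 = 0
    · simp [hp]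
    · have := HV hp
      have h2 : b ^ 2 ≤ 10 ^ 5 * T := by nlinarith [mul_nonneg h0.le (sq_nonneg a)]
      calc (b * p2) ^ 2 = b ^ 2 * p2 ^ 2 := by ring
        _ ≤ _ := mul_le_mul_of_nonneg_right h2 (sq_nonneg _)
  have U4 : h * (a * p2) ^ 2 ≤ 10 ^ 5 * T * p2 ^ 2 := by
    by_cases hp : p2 = 0
    · simp [hp]
    · have := HV hp
      have h2 : h * a ^ 2 ≤ 10 ^ 5 * T := by nlinarith [sq_nonneg b]
      calc h * (a * p2) ^ 2 = (h * a ^ 2) * p2 ^ 2 := by ring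
        _ ≤ _ := mul_le_mul_of_nonneg_right h2 (sq_nonneg _)
  have hcT : c ^ 2 ≤ 10 ^ 5 * T := by linarith
  have hdT : d ^ 2 ≤ 10 ^ 5 * T := by linarith
  have U5 : (c * p3) ^ 2 ≤ 10 ^ 5 * T * p3 ^ 2 := by
    calc (c * p3) ^ 2 = c ^ 2 * p3 ^ 2 := by ring
        _ ≤ _ := mul_le_mul_of_nonneg_right hcT (sq_nonneg _)
  have U6 : (d * p4) ^ 2 ≤ 10 ^ 5 * T * p4 ^ 2 := by
    calc (d * p4) ^ 2 = d ^ 2 * p4 ^ 2 := by ring
        _ ≤ _ := mul_le_mul_of_nonneg_right hdT (sq_nonneg _)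
  have U7 : (-d * p3) ^ 2 ≤ 10 ^ 5 * T * p3 ^ 2 := by
    calc (-d * p3) ^ 2 = d ^ 2 * p3 ^ 2 := by ring
        _ ≤ _ := mul_le_mul_of_nonneg_right hdT (sq_nonneg _)
  have U8 : (-c * p4) ^ 2 ≤ 10 ^ 5 * T * p4 ^ 2 := by
    calc (-c * p4) ^ 2 = c ^ 2 * p4 ^ 2 := by ring
        _ ≤ _ := mul_le_mul_of_nonneg_right hcT (sq_nonneg _)
  set N := T * (p1 ^ 2 + p2 ^ 2 + p3 ^ 2 + p4 ^ 2) with hN
  have hN0 : 0 ≤ N := by positivity
  have X1 : (a * p1 + b * p2 + c * p3 + d * p4) ^ 2 ≤ 4 * 10 ^ 5 * N := by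
    have := sum4_sq (a * p1) (b * p2) (c * p3) (d * p4)
    rw [hN]
    linarith
  have h1' : h ≤ 1 := le_trans h1 (by norm_num)
  have X2 : h * (b * p1 + a * p2 + -d * p3 + -c * p4) ^ 2 ≤ 4 * 10 ^ 5 * N := by
    have h2 := mul_le_mul_of_nonneg_left (sum4_sq (b * p1) (a * p2) (-d * p3) (-c * p4)) h0.le
    have h3 : h * (b * p1) ^ 2 ≤ 10 ^ 5 * T * p1 ^ 2 :=
      le_trans (mul_le_of_le_one_left (sq_nonneg _) h1') U2
    have h4 : h * (-d * p3) ^ 2 ≤ 10 ^ 5 * T * p3 ^ 2 :=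
      le_trans (mul_le_of_le_one_left (sq_nonneg _) h1') U7
    have h5 : h * (-c * p4) ^ 2 ≤ 10 ^ 5 * T * p4 ^ 2 :=
      le_trans (mul_le_of_le_one_left (sq_nonneg _) h1') U8
    rw [hN]
    linarith
  set x := a * p1 + b * p2 + c * p3 + d * p4
  set y := b * p1 + a * p2 + -d * p3 + -c * p4
  have X3 : (h * m * y) ^ 2 ≤ 10 * N := by
    have e1 : (h * m * y) ^ 2 = (h * m ^ 2) * (h * y ^ 2) := by ring
    rw [e1]
    have h2 : h * m ^ 2 ≤ 1 / 10 ^ 6 * 4 ^ 2 :=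
      mul_le_mul h1 (pow_le_pow_left₀ hm0 hm 2) (sq_nonneg _) (by norm_num)
    have h3 : (h * m ^ 2) * (h * y ^ 2) ≤ (1 / 10 ^ 6 * 4 ^ 2) * (h * y ^ 2) :=
      mul_le_mul_of_nonneg_right h2 (by positivity)
    have h4 : (1 / 10 ^ 6 * 4 ^ 2 : ℝ) * (h * y ^ 2) ≤ (1 / 10 ^ 6 * 4 ^ 2) * (4 * 10 ^ 5 * N) :=
      mul_le_mul_of_nonneg_left X2 (by norm_num)
    linarith
  rw [e]
  have h3 := add_sq_two x (h * m * y)
  linarith

private lemma half_sum {x y : ℝ} : |x * y| ≤ 1 / 2 * (x ^ 2 + y ^ 2) := by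
  rw [abs_le]
  constructor <;> nlinarith [sq_nonneg (x - y), sq_nonneg (x + y)]

private lemma Lam_diff {h m a b c d S e1 e2 : ℝ} (h0 : 0 < h) (h1 : h ≤ 1 / 10 ^ 6)
    (hm0 : 0 ≤ m) (hm : m ≤ 4) (hS : 0 ≤ S) (he1 : |e1| ≤ |a|) (he2 : |e2| ≤ |b|)
    (HU : e1 ≠ 0 → a ^ 2 + b ^ 2 ≤ 10 ^ 3 * S)
    (HV : e2 ≠ 0 → b ^ 2 + h * a ^ 2 ≤ 10 ^ 5 * S) :
    |Lam h m a b c d e1 e2 c d| ≤ 10 ^ 6 * (S + (c ^ 2 + d ^ 2)) := by
  have V1 : |a * e1| ≤ 10 ^ 3 * S := by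
    by_cases hp : e1 = 0
    · rw [hp]; simp only [mul_zero, abs_zero]; positivity
    · have := HU hp
      rw [abs_mul]
      have h2 : |a| * |e1| ≤ |a| * |a| := mul_le_mul_of_nonneg_left he1 (abs_nonneg _)
      have h3 : |a| * |a| = a ^ 2 := by rw [← sq, sq_abs]
      nlinarith [sq_nonneg b]
  have V2 : |b * e1| ≤ 10 ^ 3 * S := by
    by_cases hp : e1 = 0
    · rw [hp]; simp only [mul_zero, abs_zero]; positivity
    · have := HU hp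
      rw [abs_mul]
      have h2 : |b| * |e1| ≤ |b| * |a| := mul_le_mul_of_nonneg_left he1 (abs_nonneg _)
      have h3 : |b| * |a| ≤ 1 / 2 * (a ^ 2 + b ^ 2) := by
        have := half_sum (x := b) (y := a)
        rw [abs_mul] at this
        linarith
      have h4 : 0 ≤ a ^ 2 + b ^ 2 := by positivity
      linarith
  have V3 : |b * e2| ≤ 10 ^ 5 * S := by
    by_cases hp : e2 = 0
    · rw [hp]; simp only [mul_zero, abs_zero]; positivity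
    · have := HV hp
      rw [abs_mul]
      have h2 : |b| * |e2| ≤ |b| * |b| := mul_le_mul_of_nonneg_left he2 (abs_nonneg _)
      have h3 : |b| * |b| = b ^ 2 := by rw [← sq, sq_abs]
      have := mul_nonneg h0.le (sq_nonneg a)
      linarith
  have V4 : h * |a * e2| ≤ 10 ^ 5 * S := by
    by_cases hp : e2 = 0
    · rw [hp]; simp only [mul_zero, abs_zero]; positivity
    · have := HV hp
      have h2 : |a| * |e2| ≤ |a| * |b| := mul_le_mul_of_nonneg_left he2 (abs_nonneg _)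
      have h3 : |a| * |b| ≤ 1 / 2 * (a ^ 2 + b ^ 2) := by
        have := half_sum (x := a) (y := b)
        rw [abs_mul] at this
        linarith
      have h4 : h * |a * e2| ≤ h * (1 / 2 * (a ^ 2 + b ^ 2)) := by
        rw [abs_mul]
        exact mul_le_mul_of_nonneg_left (le_trans h2 h3) h0.le
      have h5 : h * b ^ 2 ≤ b ^ 2 :=
        mul_le_of_le_one_left (sq_nonneg _) (le_trans h1 (by norm_num))
      have h6 := mul_nonneg h0.le (sq_nonneg a)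
      linarith [sq_nonneg b]
  have V5 : |c * c| = c ^ 2 := by rw [← sq, abs_of_nonneg (sq_nonneg _)]
  have V6 : |d * d| = d ^ 2 := by rw [← sq, abs_of_nonneg (sq_nonneg _)]
  have V7 : |2 * (c * d)| ≤ c ^ 2 + d ^ 2 := by
    rw [abs_mul, abs_of_nonneg (by norm_num : (0 : ℝ) ≤ 2)]
    have := half_sum (x := c) (y := d)
    linarith
  have e : Lam h m a b c d e1 e2 c d
      = a * e1 + b * e2 + c * c + d * d + m * (h * (b * e1) + h * (a * e2) - h * (2 * (c * d))) := by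
    unfold Lam; ring
  rw [e]
  have h1' : h ≤ 1 := le_trans h1 (by norm_num)
  have W1 : |h * (b * e1)| ≤ 10 ^ 3 * S := by
    rw [abs_mul, abs_of_pos h0]
    exact le_trans (mul_le_of_le_one_left (abs_nonneg _) h1') V2
  have W2 : |h * (a * e2)| ≤ 10 ^ 5 * S := by
    rw [abs_mul, abs_of_pos h0]
    exact V4
  have W3 : |h * (2 * (c * d))| ≤ c ^ 2 + d ^ 2 := by
    rw [abs_mul, abs_of_pos h0]
    exact le_trans (mul_le_of_le_one_left (abs_nonneg _) h1') V7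
  have W4 : |h * (b * e1) + h * (a * e2) - h * (2 * (c * d))|
      ≤ 10 ^ 3 * S + 10 ^ 5 * S + (c ^ 2 + d ^ 2) := by
    have t1 := abs_sub (h * (b * e1) + h * (a * e2)) (h * (2 * (c * d)))
    have t2 := abs_add_le (h * (b * e1)) (h * (a * e2))
    linarith
  have W5 : |m * (h * (b * e1) + h * (a * e2) - h * (2 * (c * d)))|
      ≤ 4 * (10 ^ 3 * S + 10 ^ 5 * S + (c ^ 2 + d ^ 2)) := by
    rw [abs_mul, abs_of_nonneg hm0]
    exact mul_le_mul hm W4 (abs_nonneg _) (by norm_num)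
  have t1 := abs_add_le (a * e1 + b * e2 + c * c + d * d)
    (m * (h * (b * e1) + h * (a * e2) - h * (2 * (c * d))))
  have t2 := abs_add_le (a * e1 + b * e2 + c * c) (d * d)
  have t3 := abs_add_le (a * e1 + b * e2) (c * c)
  have t4 := abs_add_le (a * e1) (b * e2)
  have hZ0 : 0 ≤ c ^ 2 + d ^ 2 := by positivity
  rw [V5] at t3
  rw [V6] at t2
  linarith

theorem err4 {h K m a b c d S t t' Q Q' p1 p2 p3 p4 p1' p2' p3' p4' : ℝ}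
    (hK : 10 ^ 15 ≤ K) (h0 : 0 < h) (hh : 10 ^ 60 * K ^ 40 * h ≤ 1) (hm0 : 0 ≤ m) (hm : m ≤ 4)
    (hS : 0 ≤ S)
    (ht : |t| ≤ 160 / K) (ht' : |t'| ≤ 160 / K)
    (hdt : |t' - t| ≤ 1500 / K ^ 2 * Real.sqrt (a ^ 2 + b ^ 2 + c ^ 2 + d ^ 2))
    (h1 : |p1' - p1| ≤ |a|) (h2 : |p2' - p2| ≤ |b|) (h3 : c = p3' - p3) (h4 : d = p4' - p4)
    (HU : p1 ≠ 0 ∨ p1' ≠ 0 → a ^ 2 + b ^ 2 ≤ 10 ^ 3 * S)
    (HV : p2 ≠ 0 ∨ p2' ≠ 0 → b ^ 2 + h * (a ^ 2 * (1 + Q ^ 2 + Q' ^ 2)) ≤ 10 ^ 5 * S) :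
    |t' * Lam h m a b c d p1' p2' p3' p4' - t * Lam h m a b c d p1 p2 p3 p4|
      ≤ 1 / 1000 * (S + (c ^ 2 + d ^ 2)
        + (p1 ^ 2 + p2 ^ 2 + p3 ^ 2 + p4 ^ 2 + (p1' ^ 2 + p2' ^ 2 + p3' ^ 2 + p4' ^ 2))
          * (a ^ 2 + b ^ 2 + c ^ 2 + d ^ 2) / K ^ 2) := by
  have hh1 := h_small hK h0 hh
  have hK0 : 0 < K := lt_of_lt_of_le (by norm_num) hK
  have HV' : p2 ≠ 0 ∨ p2' ≠ 0 → b ^ 2 + h * a ^ 2 ≤ 10 ^ 5 * S := by
    intro hp
    have e1 := HV hp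
    have e2 : h * (a ^ 2 * (1 + Q ^ 2 + Q' ^ 2)) = h * a ^ 2 + h * (a ^ 2 * (Q ^ 2 + Q' ^ 2)) := by
      ring
    have e3 : 0 ≤ h * (a ^ 2 * (Q ^ 2 + Q' ^ 2)) := by positivity
    linarith
  set Y2 := a ^ 2 + b ^ 2 + c ^ 2 + d ^ 2 with hY2
  have hY : 0 ≤ Y2 := by positivity
  -- first part
  have L1 := Lam_cut (a := a) (b := b) (c := c) (d := d) (p1 := p1') (p2 := p2') (p3 := p3')
    (p4 := p4') h0 hh1 hm0 hm hS (fun hp => HU (Or.inr hp)) (fun hp => HV' (Or.inr hp))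
  -- second part
  have L2 := Lam_diff (c := c) (d := d) h0 hh1 hm0 hm hS h1 h2
    (fun hp => HU (by
      by_contra hc
      push Not at hc
      exact hp (by rw [hc.1, hc.2]; ring)))
    (fun hp => HV' (by
      by_contra hc
      push Not at hc
      exact hp (by rw [hc.1, hc.2]; ring)))
  have e : t' * Lam h m a b c d p1' p2' p3' p4' - t * Lam h m a b c d p1 p2 p3 p4
      = (t' - t) * Lam h m a b c d p1' p2' p3' p4'
        + t * Lam h m a b c d (p1' - p1) (p2' - p2) c d := by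
    rw [show Lam h m a b c d (p1' - p1) (p2' - p2) c d
      = Lam h m a b c d (p1' - p1) (p2' - p2) (p3' - p3) (p4' - p4) by rw [← h3, ← h4]]
    unfold Lam; ring
  rw [e]
  set Z := c ^ 2 + d ^ 2 with hZ
  have hZ0 : 0 ≤ Z := by positivity
  set N := p1 ^ 2 + p2 ^ 2 + p3 ^ 2 + p4 ^ 2 with hN
  set N' := p1' ^ 2 + p2' ^ 2 + p3' ^ 2 + p4' ^ 2 with hN'
  have hN0 : 0 ≤ N := by positivity
  have hN0' : 0 ≤ N' := by positivity
  set Λ := Lam h m a b c d p1' p2' p3' p4'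
  set Λd := Lam h m a b c d (p1' - p1) (p2' - p2) c d
  have F1 : |(t' - t) * Λ| ≤ 1 / 2000 * ((S + Z) + N' * Y2 / K ^ 2) := by
    apply abs_le_of_sq (by positivity) (by positivity) (by norm_num)
    have h5 : (t' - t) ^ 2 ≤ (1500 / K ^ 2) ^ 2 * Y2 := by
      have h6 : |t' - t| ^ 2 ≤ (1500 / K ^ 2 * Real.sqrt Y2) ^ 2 :=
        pow_le_pow_left₀ (abs_nonneg _) hdt 2
      rw [sq_abs, mul_pow, Real.sq_sqrt hY] at h6
      exact h6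
    calc ((t' - t) * Λ) ^ 2 = (t' - t) ^ 2 * Λ ^ 2 := by ring
      _ ≤ ((1500 / K ^ 2) ^ 2 * Y2) * (10 ^ 6 * ((S + Z) * N')) :=
          mul_le_mul h5 L1 (sq_nonneg _) (by positivity)
      _ = (1500 ^ 2 * 10 ^ 6 / K ^ 2) * ((S + Z) * (N' * Y2 / K ^ 2)) := by
          field_simp
      _ ≤ (4 * (1 / 2000) ^ 2) * ((S + Z) * (N' * Y2 / K ^ 2)) := by
          apply mul_le_mul_of_nonneg_right _ (by positivity)
          rw [div_le_iff₀ (by positivity)]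
          have : (10 ^ 15 : ℝ) ^ 2 ≤ K ^ 2 := pow_le_pow_left₀ (by norm_num) hK 2
          have h9 : (1500 ^ 2 * 10 ^ 6 : ℝ) ≤ 4 * (1 / 2000) ^ 2 * (10 ^ 15 : ℝ) ^ 2 := by norm_num
          linarith [mul_le_mul_of_nonneg_left this (by norm_num : (0 : ℝ) ≤ 4 * (1 / 2000) ^ 2)]
  have F2 : |t * Λd| ≤ 1 / 2000 * (S + Z) := by
    rw [abs_mul]
    have h5 : |t| * |Λd| ≤ 160 / K * (10 ^ 6 * (S + Z)) :=
      mul_le_mul ht L2 (abs_nonneg _) (by positivity)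
    have h6 : 160 / K ≤ 1 / (2000 * 10 ^ 6) := by
      rw [div_le_div_iff₀ hK0 (by norm_num)]
      linarith
    have h7 : 160 / K * (10 ^ 6 * (S + Z)) ≤ 1 / (2000 * 10 ^ 6) * (10 ^ 6 * (S + Z)) :=
      mul_le_mul_of_nonneg_right h6 (by positivity)
    linarith
  have F3 : N' * Y2 / K ^ 2 ≤ (N + N') * Y2 / K ^ 2 := by
    apply div_le_div_of_nonneg_right _ (by positivity)
    apply mul_le_mul_of_nonneg_right _ hY
    linarith
  have F4 : 0 ≤ (N + N') * Y2 / K ^ 2 := by positivity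
  have t1 := abs_add_le ((t' - t) * Λ) (t * Λd)
  linarith

end EC
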